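import Pool.Agent.Y801.Z5S.Num1

/-!
# The cells
-/

open Pool.Agent.H312R.ZA Pool.Agent.Y801.Z5S

namespace Pool.Agent.J6H77.Z5

/-- the cells, density `γ / 10^6` on `[p, q]` -/
def clN : List (ℕ × ℕ × ℕ) :=
  [(30, 31, 965829), (31, 32, 620735), (32, 33, 578274), (33, 34, 498820), (34, 35, 450867),
    (35, 36, 406677), (36, 37, 371265), (37, 38, 340067), (38, 40, 309896), (40, 42, 261042),
    (42, 44, 231612), (44, 46, 204459), (46, 49, 181447), (49, 53, 151567), (53, 57, 125045),
    (57, 62, 105959), (62, 67, 86721), (67, 72, 73851), (72, 77, 63113), (77, 84, 54226), (84, 94, 43683),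
    (94, 108, 33436), (108, 127, 24172), (127, 153, 16614), (153, 171, 10841), (171, 175, 8502),
    (175, 274, 7809), (274, 308, 1442), (308, 340, 1849), (340, 352, 1607), (352, 454, 1379), (454, 520, 126)]

/-- the list of the potential, step `1/64` -/
def lUm : List (ℤ × ℤ) :=
  [(-2506, 29056), (2506, -29056), (-252, 33280), (252, -33280), (-456, 22528), (456, -22528), (-484, 21760),
    (484, -21760), (814, 19712), (-814, -19712), (-12734, 17536), (12734, -17536), (-1386, 11200),
    (1386, -11200), (-4678, 10944), (4678, -10944), (-11546, 9792), (11546, -9792), (-15116, 8128),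
    (15116, -8128), (-18528, 6912), (18528, -6912), (-20494, 6016), (20494, -6016), (-21086, 5376),
    (21086, -5376), (-17774, 4928), (17774, -4928), (-21476, 4608), (21476, -4608), (-25740, 4288),
    (25740, -4288), (-38476, 3968), (38476, -3968), (-38172, 3648), (38172, -3648), (-53044, 3392),
    (53044, -3392), (-59760, 3136), (59760, -3136), (-46024, 2944), (46024, -2944), (-54306, 2816),
    (54306, -2816), (-58860, 2688), (58860, -2688), (-97708, 2560), (97708, -2560), (-60342, 2432),
    (60342, -2432), (-62396, 2368), (62396, -2368), (-70824, 2304), (70824, -2304), (-88380, 2240),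
    (88380, -2240), (-95906, 2176), (95906, -2176), (-158908, 2112), (158908, -2112), (-84922, 2048),
    (84922, -2048), (-690188, 1984), (690188, -1984), (-68342, 1920), (68342, -1920), (1000000, 1536),
    (-1000000, -1536), (2000000, 1024), (-2000000, -1024), (1000000, 896), (-1000000, -896), (1000000, 1152),
    (-1000000, -1152)]

lemma mrg_eq : mrg (phl 1000000 64 ++ bld 64 (lT 1000000 clN)) = lUm := by decide +kernel

end Pool.Agent.J6H77.Z5
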