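import Pool.Agent.J6H77.Z5.Cells

/-!
# Certificates for the potential, part A
-/

open Pool.Agent.H312R.ZA Pool.Agent.Y801.Z5S

namespace Pool.Agent.J6H77.Z5

def st0 : List ℤ :=
  [4, 30, 30, 13, 9, 6, 4, 4, 4, 5, 9, 10, 3]

lemma ck0 : chkL 64 lUm (-1672960000000000000000) 1920 st0 = true := by decide +kernel

lemma en0 : endL 1920 st0 = 2051 := by decide +kernel

def st1 : List ℤ :=
  [3, 4, 8, 17, 28, 1, 6, 4, 4, 5, 6, 11, 20]

lemma ck1 : chkL 64 lUm (-1672960000000000000000) 2051 st1 = true := by decide +kernel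

lemma en1 : endL 2051 st1 = 2168 := by decide +kernel

def st2 : List ℤ :=
  [8, 5, 4, 5, 6, 11, 20, 13, 5, 4, 5, 6, 9]

lemma ck2 : chkL 64 lUm (-1672960000000000000000) 2168 st2 = true := by decide +kernel

lemma en2 : endL 2168 st2 = 2269 := by decide +kernel

def st3 : List ℤ :=
  [16, 19, 5, 4, 5, 6, 10, 17, 17, 5, 4, 6, 7]

lemma ck3 : chkL 64 lUm (-1672960000000000000000) 2269 st3 = true := by decide +kernel

lemma en3 : endL 2269 st3 = 2390 := by decide +kernel

def st4 : List ℤ :=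
  [12, 20, 10, 5, 5, 6, 9, 17, 32, 51, 3, 12, 8]

lemma ck4 : chkL 64 lUm (-1672960000000000000000) 2390 st4 = true := by decide +kernel

lemma en4 : endL 2390 st4 = 2580 := by decide +kernel

def st5 : List ℤ :=
  [7, 8, 9, 14, 23, 36, 11, 9, 7, 8, 8, 13, 21]

lemma ck5 : chkL 64 lUm (-1672960000000000000000) 2580 st5 = true := by decide +kernel

lemma en5 : endL 2580 st5 = 2754 := by decide +kernel

def st6 : List ℤ :=
  [34, 28, 10, 8, 8, 9, 12, 20, 31, 30, 9, 7, 9]

lemma ck6 : chkL 64 lUm (-1672960000000000000000) 2754 st6 = true := by decide +kernel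

lemma en6 : endL 2754 st6 = 2969 := by decide +kernel

def st7 : List ℤ :=
  [10, 16, 27, 44, 62, 8, 16, 11, 9, 10, 11, 17, 27]

lemma ck7 : chkL 64 lUm (-1672960000000000000000) 2969 st7 = true := by decide +kernel

lemma en7 : endL 2969 st7 = 3237 := by decide +kernel

def st8 : List ℤ :=
  [43, 65, 47, 20, 14, 11, 11, 12, 16, 24, 36, 52, 56]

lemma ck8 : chkL 64 lUm (-1672960000000000000000) 3237 st8 = true := by decide +kernel

lemma en8 : endL 3237 st8 = 3644 := by decide +kernel

def st9 : List ℤ :=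
  [4, 17, 12, 11, 12, 14, 20, 31, 46, 67, 78, 12, 24]

lemma ck9 : chkL 64 lUm (-1672960000000000000000) 3644 st9 = true := by decide +kernel

lemma en9 : endL 3644 st9 = 3992 := by decide +kernel

lemma ckL1 : chkL 64 (Pool.Agent.H312R.PC.ngl lUm) 1672953600000000000000 1024 [128, 384, 250, 99, 29, 2] = true := by decide +kernel

lemma ckL2 : chkL 64 (Pool.Agent.H312R.PC.ngl lUm) 1673273600000000000000 1916 [4] = true := by decide +kernel

end Pool.Agent.J6H77.Z5
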