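import Pool.Agent.J6H77.Z5.Cells

/-!
# Certificates for the potential, part B
-/

open Pool.Agent.H312R.ZA Pool.Agent.Y801.Z5S

namespace Pool.Agent.J6H77.Z5

def st10 : List ℤ :=
  [17, 14, 13, 13, 16, 22, 31, 44, 59, 61, 6, 21, 15]

lemma ck10 : chkL 64 lUm (-1672960000000000000000) 3992 st10 = true := by decide +kernel

lemma en10 : endL 3992 st10 = 4324 := by decide +kernel

def st11 : List ℤ :=
  [13, 14, 15, 19, 26, 37, 50, 64, 46, 22, 16, 14, 15]

lemma ck11 : chkL 64 lUm (-1672960000000000000000) 4324 st11 = true := by decide +kernel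

lemma en11 : endL 4324 st11 = 4675 := by decide +kernel

def st12 : List ℤ :=
  [16, 20, 27, 36, 48, 60, 46, 21, 16, 15, 15, 18, 24]

lemma ck12 : chkL 64 lUm (-1672960000000000000000) 4675 st12 = true := by decide +kernel

lemma en12 : endL 4675 st12 = 5037 := by decide +kernel

def st13 : List ℤ :=
  [33, 46, 62, 80, 89, 29, 31, 22, 18, 16, 17, 19, 24]

lemma ck13 : chkL 64 lUm (-1672960000000000000000) 5037 st13 = true := by decide +kernel

lemma en13 : endL 5037 st13 = 5523 := by decide +kernel

def st14 : List ℤ :=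
  [33, 45, 60, 79, 99, 116, 61, 40, 29, 23, 19, 18, 19]

lemma ck14 : chkL 64 lUm (-1672960000000000000000) 5523 st14 = true := by decide +kernel

lemma en14 : endL 5523 st14 = 6164 := by decide +kernel

def st15 : List ℤ :=
  [21, 27, 35, 47, 62, 81, 102, 125, 143, 105, 54, 39, 30]

lemma ck15 : chkL 64 lUm (-1672960000000000000000) 6164 st15 = true := by decide +kernel

lemma en15 : endL 6164 st15 = 7035 := by decide +kernel

def st16 : List ℤ :=
  [24, 21, 21, 21, 23, 28, 36, 46, 59, 75, 94, 116, 138]

lemma ck16 : chkL 64 lUm (-1672960000000000000000) 7035 st16 = true := by decide +kernel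

lemma en16 : endL 7035 st16 = 7737 := by decide +kernel

def st17 : List ℤ :=
  [159, 158, 74, 67, 49, 39, 31, 25, 23, 23, 23, 25, 30]

lemma ck17 : chkL 64 lUm (-1672960000000000000000) 7737 st17 = true := by decide +kernel

lemma en17 : endL 7737 st17 = 8463 := by decide +kernel

def st18 : List ℤ :=
  [36, 44, 55, 69, 85, 104, 125, 147, 169, 188, 187, 120, 87]

lemma ck18 : chkL 64 lUm (-1672960000000000000000) 8463 st18 = true := by decide +kernel

lemma en18 : endL 8463 st18 = 9879 := by decide +kernel

end Pool.Agent.J6H77.Z5
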