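import Pool.Agent.J6H77.Z5.Cells

/-!
# Certificates for the potential, part C
-/

open Pool.Agent.H312R.ZA Pool.Agent.Y801.Z5S

namespace Pool.Agent.J6H77.Z5

def st19 : List ℤ :=
  [67, 54, 44, 36, 31, 28, 26, 26, 26, 27, 29, 33, 37]

lemma ck19 : chkL 64 lUm (-1672960000000000000000) 9879 st19 = true := by decide +kernel

lemma en19 : endL 9879 st19 = 10343 := by decide +kernel

def st20 : List ℤ :=
  [43, 49, 56, 64, 73, 81, 88, 87, 60, 41, 33, 29, 27]

lemma ck20 : chkL 64 lUm (-1672960000000000000000) 10343 st20 = true := by decide +kernel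

lemma en20 : endL 10343 st20 = 11074 := by decide +kernel

def st21 : List ℤ :=
  [27, 27, 28, 30, 14, 28, 28, 35, 45, 58, 75, 96, 121]

lemma ck21 : chkL 64 lUm (-1672960000000000000000) 11074 st21 = true := by decide +kernel

lemma en21 : endL 11074 st21 = 11686 := by decide +kernel

def st22 : List ℤ :=
  [150, 184, 223, 266, 314, 366, 420, 476, 532, 584, 628, 650, 615]

lemma ck22 : chkL 64 lUm (-1672960000000000000000) 11686 st22 = true := by decide +kernel

lemma en22 : endL 11686 st22 = 17094 := by decide +kernel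

def st23 : List ℤ :=
  [442, 360, 297, 250, 211, 177, 150, 126, 107, 90, 76, 65, 55]

lemma ck23 : chkL 64 lUm (-1672960000000000000000) 17094 st23 = true := by decide +kernel

lemma en23 : endL 17094 st23 = 19500 := by decide +kernel

def st24 : List ℤ :=
  [48, 42, 38, 37, 35, 12, 44, 50, 51, 50, 49, 48, 46]

lemma ck24 : chkL 64 lUm (-1672960000000000000000) 19500 st24 = true := by decide +kernel

lemma en24 : endL 19500 st24 = 20050 := by decide +kernel

def st25 : List ℤ :=
  [45, 44, 42, 41, 40, 40, 39, 39, 39, 38, 38, 39, 39]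

lemma ck25 : chkL 64 lUm (-1672960000000000000000) 20050 st25 = true := by decide +kernel

lemma en25 : endL 20050 st25 = 20573 := by decide +kernel

def st26 : List ℤ :=
  [39, 40, 40, 41, 42, 43, 45, 46, 47, 49, 50, 52, 54]

lemma ck26 : chkL 64 lUm (-1672960000000000000000) 20573 st26 = true := by decide +kernel

lemma en26 : endL 20573 st26 = 21161 := by decide +kernel

def st27 : List ℤ :=
  [55, 57, 59, 60, 61, 62, 63, 62, 59, 54, 7, 45, 42]

lemma ck27 : chkL 64 lUm (-1672960000000000000000) 21161 st27 = true := by decide +kernel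

lemma en27 : endL 21161 st27 = 21847 := by decide +kernel

def st28 : List ℤ :=
  [40, 39, 39, 39, 40, 40, 41, 42, 44, 45, 47, 48, 49]

lemma ck28 : chkL 64 lUm (-1672960000000000000000) 21847 st28 = true := by decide +kernel

lemma en28 : endL 21847 st28 = 22400 := by decide +kernel

end Pool.Agent.J6H77.Z5
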