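import Pool.Agent.J6H77.Z5.Cells

/-!
# Certificates for the potential, part D
-/

open Pool.Agent.H312R.ZA Pool.Agent.Y801.Z5S

namespace Pool.Agent.J6H77.Z5

def st29 : List ℤ :=
  [50, 49, 29, 39, 39, 40, 41, 43, 46, 50, 55, 61, 67]

lemma ck29 : chkL 64 lUm (-1672960000000000000000) 22400 st29 = true := by decide +kernel

lemma en29 : endL 22400 st29 = 23009 := by decide +kernel

def st30 : List ℤ :=
  [74, 81, 90, 99, 108, 118, 129, 141, 153, 166, 179, 193, 207]

lemma ck30 : chkL 64 lUm (-1672960000000000000000) 23009 st30 = true := by decide +kernel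

lemma en30 : endL 23009 st30 = 24747 := by decide +kernel

def st31 : List ℤ :=
  [222, 237, 252, 266, 281, 295, 308, 319, 329, 337, 339, 333, 319]

lemma ck31 : chkL 64 lUm (-1672960000000000000000) 24747 st31 = true := by decide +kernel

lemma en31 : endL 24747 st31 = 28584 := by decide +kernel

def st32 : List ℤ :=
  [292, 180, 191, 164, 143, 125, 111, 99, 88, 79, 72, 66, 60]

lemma ck32 : chkL 64 lUm (-1672960000000000000000) 28584 st32 = true := by decide +kernel

lemma en32 : endL 28584 st32 = 30254 := by decide +kernel

def st33 : List ℤ :=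
  [56, 52, 49, 47, 45, 44, 44, 44, 44, 44, 45, 47, 49]

lemma ck33 : chkL 64 lUm (-1672960000000000000000) 30254 st33 = true := by decide +kernel

lemma en33 : endL 30254 st33 = 30864 := by decide +kernel

def st34 : List ℤ :=
  [51, 54, 58, 62, 66, 71, 77, 83, 90, 98, 106, 115, 125]

lemma ck34 : chkL 64 lUm (-1672960000000000000000) 30864 st34 = true := by decide +kernel

lemma en34 : endL 30864 st34 = 31920 := by decide +kernel

def st35 : List ℤ :=
  [135, 147, 159, 171, 185, 199, 213, 151, 234, 248, 266, 286, 308]

lemma ck35 : chkL 64 lUm (-1672960000000000000000) 31920 st35 = true := by decide +kernel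

lemma en35 : endL 31920 st35 = 34622 := by decide +kernel

def st36 : List ℤ :=
  [333, 359, 387, 417, 449, 483, 519, 556, 596, 638, 682, 728, 776]

lemma ck36 : chkL 64 lUm (-1672960000000000000000) 34622 st36 = true := by decide +kernel

lemma en36 : endL 34622 st36 = 41545 := by decide +kernel

def st37 : List ℤ :=
  [827, 879, 934, 615]

lemma ck37 : chkL 64 lUm (-1672960000000000000000) 41545 st37 = true := by decide +kernel

lemma en37 : endL 41545 st37 = 44800 := by decide +kernel

end Pool.Agent.J6H77.Z5
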