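import Pool.Agent.H336R2.Z5.DefsP

/-!
# Irrationality exponent of `ζ(5)`: definitions for the improved `p`-adic bound

The exponent of the start library for the primes `n/20 < p < 12 n` uses an odd threshold `μ`; the exponents of the
classes are all even, and an even threshold is better by `|n - (p/2) round(2n/p)|`. The windows are continued down to
the primes `p > n/128`.
-/

open Polynomial Pool.Agent.H337R2 Pool.Agent.H336R2.Z5

namespace Pool.Agent.J6H77.Z5

noncomputable section

/-- the range of `j` -/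
abbrev JC : Finset ℕ := Finset.Icc 1 5888

/-- exponent for `n/128 < p < 12 n` -/
def EN (n p : ℕ) : ℝ :=
  90 * n - 23 * n * (vv n p : ℝ) +
    ∑ j ∈ JC, (tn (18 * n) j p + 2 * tn (17 * n) j p + 3 * tn (16 * n) j p + 2 * tn (15 * n) j p
      + tn (14 * n) j p - 4 * tn n j p - 3 * tn (2 * n) j p)

/-- limit of the floor sums -/
def IflC (α : ℕ) (lo hi : ℚ) : ℚ := ∑ j ∈ JC, (max lo (min hi ((α : ℚ) / j)) - lo)

/-- the limit for the primes `n/128 < p < 12 n` -/
def LN : ℚ := 90 * (12 - 1 / 128) - 46 * (IflC 18 (1 / 128) 12 + IflC 16 (1 / 128) 12 + IflC 14 (1 / 128) 12) +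
  ∑ j ∈ JC, (It 18 j (1 / 128) 12 + 2 * It 17 j (1 / 128) 12 + 3 * It 16 j (1 / 128) 12 + 2 * It 15 j (1 / 128) 12
    + It 14 j (1 / 128) 12 - 4 * It 1 j (1 / 128) 12 - 3 * It 2 j (1 / 128) 12)

/-- the limit for the superfactorials -/
def LV : ℚ := ∑ j ∈ JC, It 46 j (1 / 128) 46

end

end Pool.Agent.J6H77.Z5
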