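import Pool.Agent.J6H77.Z5.PS
import Pool.Agent.Y801.Z5S.MA

/-!
# Irrationality measure of `ζ(5)`: assembly with the improved p-adic bound

`ArchB A Θ` (start library) is the archimedean input: `log |DET n x| ≤ 1058 n² log n + (A + ε) n²` as soon as
`|x - ζ(5)| ≤ exp (-(Θ + ε) n)`. The p-adic side now gives `-1058 n² log n - 632.04 n²`.
-/

open Polynomial Pool.Agent.H337R2 Pool.Agent.H336R2.Z5 Pool.Agent.H312R.ZA Pool.Agent.Y801.Z5S Filter Topology

namespace Pool.Agent.J6H77.Z5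

noncomputable section

/-- no good approximation with a large denominator -/
theorem large_den {A Θ K : ℝ} {κ : ℝ} (hA : ArchB A Θ) (hAP : 56204 / 100 ≤ A) (hK4 : 1 / 4 ≤ K)
    (hK : 14 < K * (63204 / 100 - A)) (hκ : Θ * K < κ) (hκ0 : 0 ≤ κ) : ∃ b0 : ℕ, 1 ≤ b0 ∧ ∀ (a : ℤ) (b : ℕ), b0 ≤ b →
    ((b : ℝ) ^ κ)⁻¹ < |zr 5 - (a : ℝ) / b| := by
  have hK0 : 0 < K := by linarith
  set δ : ℝ := 63204 / 100 - A with hδ
  -- the parameters
  set s0 : ℝ := (K / 12 + (K - 1 / 5)) / 2 with hs0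
  have hs01 : 0 < s0 := by rw [hs0]; linarith
  have hs02 : s0 + 1 / 5 < K := by rw [hs0]; linarith
  have hs03 : K < 12 * s0 := by rw [hs0]; linarith
  obtain ⟨ε, hε0, hε1, hε2⟩ : ∃ ε : ℝ, 0 < ε ∧ (70 + 4 * K) * ε < K * δ - 14 ∧ (Θ + ε) * K ≤ κ := by
    refine ⟨min ((K * δ - 14) / (2 * (70 + 4 * K))) ((κ - Θ * K) / K), ?_, ?_, ?_⟩
    · apply lt_min
      · exact div_pos (by linarith) (by positivity)
      · exact div_pos (by linarith) hK0
    · have h1 : (70 + 4 * K) * min ((K * δ - 14) / (2 * (70 + 4 * K))) ((κ - Θ * K) / K) ≤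
          (70 + 4 * K) * ((K * δ - 14) / (2 * (70 + 4 * K))) :=
        mul_le_mul_of_nonneg_left (min_le_left _ _) (by positivity)
      have h2 : (70 + 4 * K) * ((K * δ - 14) / (2 * (70 + 4 * K))) = (K * δ - 14) / 2 := by
        field_simp
      linarith
    · have h1 : min ((K * δ - 14) / (2 * (70 + 4 * K))) ((κ - Θ * K) / K) * K ≤ ((κ - Θ * K) / K) * K :=
        mul_le_mul_of_nonneg_right (min_le_right _ _) hK0.le
      have h2 : ((κ - Θ * K) / K) * K = κ - Θ * K := by field_simp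
      nlinarith
  obtain ⟨L0, hL00, hsel⟩ := select K s0 hs01 hs02 ε hε0
  obtain ⟨p0, hp0⟩ := nonvanish4
  obtain ⟨K0, hK00, hPU⟩ := BN_unif
  have hev := ((hA ε hε0).and (PN_sum K0 hK00 ε hε0)).and (small_terms s0 ε hs01 hε0)
  rw [eventually_atTop] at hev
  obtain ⟨n0, hn0⟩ := hev
  obtain ⟨b0, hb0⟩ := exists_nat_gt (Real.exp (L0 + (n0 + p0 + 1000000) / s0))
  refine ⟨b0, ?_, fun a b hb => ?_⟩
  · have : (0 : ℝ) < b0 := (Real.exp_pos _).trans hb0
    have : 0 < b0 := by exact_mod_cast this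
    omega
  by_contra hcon
  push Not at hcon
  have hbR : Real.exp (L0 + (n0 + p0 + 1000000) / s0) < b := hb0.trans_le (by exact_mod_cast hb)
  have hbpos : (0 : ℝ) < b := (Real.exp_pos _).trans hbR
  have hb1 : 0 < b := by exact_mod_cast hbpos
  set L : ℝ := Real.log b with hL
  have hn0c : (0 : ℝ) ≤ n0 := Nat.cast_nonneg _
  have hp0c : (0 : ℝ) ≤ p0 := Nat.cast_nonneg _
  have hLbig : L0 + (n0 + p0 + 1000000) / s0 < L := by
    rw [hL]
    exact (Real.lt_log_iff_exp_lt hbpos).2 hbR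
  have hfrac : 0 < (n0 + p0 + 1000000) / s0 := by positivity
  have hLpos : 0 < L := by linarith
  obtain ⟨n, hnp, hnL, hnU, hnb, S, hS1, hS2, hS3⟩ := hsel b hb1 (by linarith)
  have hfn : Fact n.Prime := ⟨hnp⟩
  have hnR : (n0 : ℝ) + p0 + 1000000 < n := by
    have h1 : (n0 + p0 + 1000000) / s0 < L := by linarith
    rw [div_lt_iff₀ hs01] at h1
    linarith
  have hnn0 : n0 ≤ n := by
    have : (n0 : ℝ) ≤ n := by linarith
    exact_mod_cast this
  have hnp0 : p0 ≤ n := by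
    have : (p0 : ℝ) ≤ n := by linarith
    exact_mod_cast this
  have hn2 : 1000000 ≤ n := by
    have : ((1000000 : ℕ) : ℝ) ≤ n := by push_cast; linarith
    exact_mod_cast this
  have hnpos : (0 : ℝ) < n := by linarith
  -- the rational number
  set x : ℚ := (a : ℚ) / b with hx
  have hbq : (b : ℚ) ≠ 0 := by exact_mod_cast hb1.ne'
  have hxR : (x : ℝ) = (a : ℝ) / b := by rw [hx]; push_cast; rfl
  have hDne : DET n x (mN n) ≠ 0 := hp0 n hnp0 hnp x (norm_div_le n a b hb1 4 hnb)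
  obtain ⟨⟨hAn, hPn⟩, hsm⟩ := hn0 n hnn0
  -- the distance
  have hdist : |(x : ℝ) - zr 5| ≤ Real.exp (-((Θ + ε) * n)) := by
    rw [abs_sub_comm, hxR]
    refine hcon.trans ?_
    have h1 : ((b : ℝ) ^ κ)⁻¹ = Real.exp (-(κ * L)) := by
      rw [Real.exp_neg, hL, Real.rpow_def_of_pos hbpos, mul_comm]
    rw [h1]
    apply Real.exp_le_exp.2
    have h2 : (Θ + ε) * n ≤ κ * L := by
      rcases le_or_gt 0 (Θ + ε) with h3 | h3
      · calc (Θ + ε) * n ≤ (Θ + ε) * (K * L) := mul_le_mul_of_nonneg_left hnU h3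
          _ = ((Θ + ε) * K) * L := by ring
          _ ≤ κ * L := mul_le_mul_of_nonneg_right hε2 hLpos.le
      · have h4 : (Θ + ε) * n ≤ 0 := (mul_neg_of_neg_of_pos h3 hnpos).le
        have h5 : 0 ≤ κ * L := by positivity
        linarith
    linarith
  have hArch := hAn x hdist hDne
  -- the polynomial
  obtain ⟨P, hPd, hPe⟩ := det_poly n
  set d : ℕ := 14 * n + 2 with hd
  set PiS : ℕ := ∏ p ∈ S, p ^ 5 with hPiS
  obtain ⟨b', hb'⟩ := hS2
  have hPiSpos : 0 < PiS := by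
    rw [hPiS]
    exact Finset.prod_pos fun p hp => pow_pos (hS1 p hp).1.pos 5
  have hb'pos : 0 < b' := by
    rcases Nat.eq_zero_or_pos b' with h | h
    · rw [h, mul_zero] at hb'
      omega
    · exact h
  set z : ℚ := (d.factorial : ℚ) * (b' : ℚ) ^ d * DET n x (mN n) with hz
  have hb'q : (b' : ℚ) ≠ 0 := by exact_mod_cast hb'pos.ne'
  have hz0 : z ≠ 0 := mul_ne_zero (mul_ne_zero (by exact_mod_cast (Nat.factorial_pos d).ne')
    (pow_ne_zero _ hb'q)) hDne
  -- the local bounds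
  have hloc : ∀ p : ℕ, p.Prime → ((padicNorm p z : ℚ) : ℝ) ≤ BN K0 n p := by
    intro p hp
    have hpf : Fact p.Prime := ⟨hp⟩
    have hpq : (p : ℚ) ≠ 0 := by exact_mod_cast hp.pos.ne'
    by_cases hpS : p ∈ S
    · -- substitute `j / p ^ 5`
      have hres := interp (p := p) (P.comp (C (((p : ℚ) ^ 5)⁻¹) * X)) d (by
        refine (Polynomial.natDegree_comp_le).trans ?_
        have h1 : (C (((p : ℚ) ^ 5)⁻¹) * X : ℚ[X]).natDegree ≤ 1 :=
          (Polynomial.natDegree_C_mul_le _ _).trans Polynomial.natDegree_X_le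
        calc P.natDegree * (C (((p : ℚ) ^ 5)⁻¹) * X : ℚ[X]).natDegree ≤ P.natDegree * 1 :=
              Nat.mul_le_mul_left _ h1
          _ ≤ d := by omega) (b' : ℚ) ((p : ℚ) ^ 5 * x) (padicNorm.of_nat b') (by
        -- `b' p^5 x = a / ∏_{q ≠ p} q^5`
        have e1 : (b' : ℚ) * ((p : ℚ) ^ 5 * x) = (a : ℚ) / ((∏ q ∈ S.erase p, q ^ 5 : ℕ) : ℚ) := by
          have h1 : PiS = p ^ 5 * ∏ q ∈ S.erase p, q ^ 5 := by
            rw [hPiS, ← Finset.mul_prod_erase S (fun q => q ^ 5) hpS]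
          have h2 : ((∏ q ∈ S.erase p, q ^ 5 : ℕ) : ℚ) ≠ 0 := by
            have : 0 < ∏ q ∈ S.erase p, q ^ 5 :=
              Finset.prod_pos fun q hq => pow_pos (hS1 q (Finset.mem_of_mem_erase hq)).1.pos 5
            exact_mod_cast this.ne'
          rw [hx, hb', h1]
          set R : ℕ := ∏ q ∈ S.erase p, q ^ 5
          push_cast
          field_simp
        rw [e1, padicNorm.div]
        have h3 : padicNorm p ((∏ q ∈ S.erase p, q ^ 5 : ℕ) : ℚ) = 1 := by
          rw [padicNorm.nat_eq_one_iff]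
          intro hdvd
          rw [Prime.dvd_finsetProd_iff (Nat.prime_iff.1 hp)] at hdvd
          obtain ⟨q, hq, hpq⟩ := hdvd
          have h4 := hp.dvd_of_dvd_pow hpq
          rw [Nat.prime_dvd_prime_iff_eq hp (hS1 q (Finset.mem_of_mem_erase hq)).1] at h4
          exact (Finset.mem_erase.1 hq).1 h4.symm
        rw [h3, div_one]
        exact padicNorm.of_int a)
      obtain ⟨j, hj⟩ := hres
      have e2 : (P.comp (C (((p : ℚ) ^ 5)⁻¹) * X)).eval ((p : ℚ) ^ 5 * x) = DET n x (mN n) := by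
        rw [Polynomial.eval_comp, Polynomial.eval_mul, Polynomial.eval_C, Polynomial.eval_X, ← mul_assoc,
          inv_mul_cancel₀ (pow_ne_zero 5 hpq), one_mul, hPe]
      have e3 : (P.comp (C (((p : ℚ) ^ 5)⁻¹) * X)).eval (j : ℚ) = DET n ((j : ℚ) / (p : ℚ) ^ 5) (mN n) := by
        rw [Polynomial.eval_comp, Polynomial.eval_mul, Polynomial.eval_C, Polynomial.eval_X, hPe, mul_comm,
          div_eq_mul_inv]
      rw [e2, e3, ← hz] at hj
      have hpn := (hS1 p hpS).2
      have hp12 : p < 12 * n := by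
        have h1 : (p : ℝ) < 12 * n := by
          calc (p : ℝ) ≤ K * L := hpn.2
            _ < (12 * s0) * L := mul_lt_mul_of_pos_right hs03 hLpos
            _ = 12 * (s0 * L) := by ring
            _ < 12 * n := by linarith
        exact_mod_cast h1
      have h5 := hPU n hn2 p hp ((j : ℚ) / (p : ℚ) ^ 5) (Or.inr ⟨hpn.1, hp12, norm_nat_div_pow p j 5⟩)
      refine le_trans ?_ h5
      exact_mod_cast hj
    · have hres := interp (p := p) P d hPd (b' : ℚ) x (padicNorm.of_nat b') (by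
        have e1 : (b' : ℚ) * x = (a : ℚ) / (PiS : ℚ) := by
          have h2 : (PiS : ℚ) ≠ 0 := by exact_mod_cast hPiSpos.ne'
          rw [hx, hb']
          push_cast
          field_simp
        rw [e1, padicNorm.div]
        have h3 : padicNorm p (PiS : ℚ) = 1 := by
          rw [padicNorm.nat_eq_one_iff, hPiS]
          intro hdvd
          rw [Prime.dvd_finsetProd_iff (Nat.prime_iff.1 hp)] at hdvd
          obtain ⟨q, hq, hpq⟩ := hdvd
          have h4 := hp.dvd_of_dvd_pow hpq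
          rw [Nat.prime_dvd_prime_iff_eq hp (hS1 q hq).1] at h4
          rw [h4] at hpS
          exact hpS hq
        rw [h3, div_one]
        exact padicNorm.of_int a)
      obtain ⟨j, hj⟩ := hres
      rw [hPe, hPe, ← hz] at hj
      have h5 := hPU n hn2 p hp (j : ℚ) (Or.inl (padicNorm.of_nat j))
      refine le_trans ?_ h5
      exact_mod_cast hj
  -- product formula
  set T : Finset ℕ := (Finset.range (48 * n + 1)).filter Nat.Prime with hT
  have hpf := Pool.Agent.H336R2.HD.A5_prod_formula z hz0 T (fun p hp => (Finset.mem_filter.1 hp).2)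
    (fun p => BN K0 n p) (fun p hp => hloc p (Finset.mem_filter.1 hp).2) (fun p hp hpT => by
      rw [hT, Finset.mem_filter, Finset.mem_range] at hpT
      have h1 : 48 * n < p := by
        by_contra h; exact hpT ⟨by omega, hp⟩
      have h2 := hloc p hp
      rw [BN, if_pos (by omega), if_neg (by omega), if_neg (by omega)] at h2
      exact_mod_cast h2)
  have hBpos : ∀ p ∈ T, 0 < BN K0 n p := fun p hp => BN_pos K0 n p (Finset.mem_filter.1 hp).2
  have hprodpos : 0 < ∏ p ∈ T, BN K0 n p := Finset.prod_pos hBpos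
  have hzabs : 0 < |(z : ℝ)| := abs_pos.2 (by exact_mod_cast hz0)
  have hlog := Real.log_nonneg hpf
  rw [Real.log_mul hzabs.ne' hprodpos.ne', Real.log_prod (fun p hp => (hBpos p hp).ne')] at hlog
  have hb'R : (0 : ℝ) < b' := by exact_mod_cast hb'pos
  have hfacR : (0 : ℝ) < (d.factorial : ℝ) := by exact_mod_cast Nat.factorial_pos d
  have hzlog : Real.log |(z : ℝ)| = Real.log (d.factorial : ℝ) + d * Real.log b' +
      Real.log |((DET n x (mN n) : ℚ) : ℝ)| := by
    rw [hz]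
    push_cast
    have hDr : |((DET n x (mN n) : ℚ) : ℝ)| ≠ 0 := (abs_pos.2 (by exact_mod_cast hDne)).ne'
    rw [abs_mul, abs_of_pos (by positivity : (0 : ℝ) < (d.factorial : ℝ) * (b' : ℝ) ^ d),
      Real.log_mul (by positivity) hDr, Real.log_mul (by positivity) (by positivity), Real.log_pow]
  -- the logarithm of `b'`
  have hb'log : Real.log b' = L - 5 * ∑ p ∈ S, Real.log p := by
    have h1 : L = Real.log (PiS : ℝ) + Real.log b' := by
      rw [hL, hb']
      push_cast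
      rw [Real.log_mul (by exact_mod_cast hPiSpos.ne') hb'R.ne']
    have h2 : Real.log (PiS : ℝ) = 5 * ∑ p ∈ S, Real.log p := by
      rw [hPiS]
      push_cast
      rw [Real.log_prod (fun p hp => by
        have : (0 : ℝ) < p := by exact_mod_cast (hS1 p hp).1.pos
        positivity), Finset.mul_sum]
      refine Finset.sum_congr rfl fun p _ => ?_
      rw [Real.log_pow]
      norm_num
    linarith
  have hb'0 : 0 ≤ Real.log b' := Real.log_nonneg (by exact_mod_cast hb'pos)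
  have hb'up : Real.log b' ≤ L * (1 - 5 * K + 5 * ε) + 5 * n := by
    rw [hb'log]
    nlinarith
  have hb'L : Real.log b' ≤ L := by
    rw [hb'log]
    have : 0 ≤ ∑ p ∈ S, Real.log p := Finset.sum_nonneg fun p hp =>
      Real.log_nonneg (by exact_mod_cast (hS1 p hp).1.one_lt.le)
    linarith
  have hLn : L ≤ n / s0 := by
    rw [le_div_iff₀ hs01]
    linarith
  have hdR : (d : ℝ) = 14 * n + 2 := by rw [hd]; push_cast; ring
  have hfac : Real.log (d.factorial : ℝ) ≤ (14 * (n : ℝ) + 2) * Real.log (14 * n + 2) := by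
    have h2 : (d.factorial : ℝ) ≤ (d : ℝ) ^ d := by exact_mod_cast Nat.factorial_le_pow d
    calc Real.log (d.factorial : ℝ) ≤ Real.log ((d : ℝ) ^ d) := Real.log_le_log hfacR h2
      _ = d * Real.log d := by rw [Real.log_pow]
      _ = _ := by rw [hdR]
  rw [hzlog, hdR] at hlog
  -- final contradiction
  have f1 : (14 * (n : ℝ) + 2) * Real.log b' ≤ 14 * n * (L * (1 - 5 * K + 5 * ε) + 5 * n) + 2 * (n / s0) := by
    have h1 : 14 * (n : ℝ) * Real.log b' ≤ 14 * n * (L * (1 - 5 * K + 5 * ε) + 5 * n) :=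
      mul_le_mul_of_nonneg_left hb'up (by positivity)
    linarith
  have f2 : 0 ≤ 14 * n * (L * (1 - 5 * K + 5 * ε) + 5 * n) - (δ - 3 * ε) * (n : ℝ) ^ 2 := by
    have h1 := hPn
    rw [hδ]
    linarith
  have f3 : 0 ≤ (n : ℝ) * (14 * L * (1 - 5 * K + 5 * ε) + (70 - δ + 3 * ε) * n) := by
    have e : (n : ℝ) * (14 * L * (1 - 5 * K + 5 * ε) + (70 - δ + 3 * ε) * n) =
        14 * n * (L * (1 - 5 * K + 5 * ε) + 5 * n) - (δ - 3 * ε) * (n : ℝ) ^ 2 := by ring
    rw [e]
    exact f2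
  have f4 : 0 ≤ 14 * L * (1 - 5 * K + 5 * ε) + (70 - δ + 3 * ε) * n := by
    by_contra hneg
    push Not at hneg
    have := mul_neg_of_pos_of_neg hnpos hneg
    linarith
  have f5 : (70 - δ + 3 * ε) * n ≤ (70 - δ + 3 * ε) * (K * L) :=
    mul_le_mul_of_nonneg_left hnU (by rw [hδ]; linarith)
  have f6 : 14 * L * (1 - 5 * K + 5 * ε) + (70 - δ + 3 * ε) * (K * L) =
      L * (14 + 70 * ε - K * δ + 3 * K * ε) := by ring
  have f7 : 14 + 70 * ε - K * δ + 3 * K * ε < 0 := by nlinarith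
  have f8 := mul_neg_of_pos_of_neg hLpos f7
  linarith

/-- **Irrationality measure of `ζ(5)`** -/
theorem measure_of {A Θ K : ℝ} {κ : ℝ} (hA : ArchB A Θ) (hAP : 56204 / 100 ≤ A) (hK4 : 1 / 4 ≤ K)
    (hK : 14 < K * (63204 / 100 - A)) (hκ : Θ * K < κ) (hκ0 : 0 ≤ κ) :
    ∃ c : ℝ, 0 < c ∧ ∀ (a : ℤ) (b : ℕ), 0 < b → c / (b : ℝ) ^ κ ≤ |zr 5 - (a : ℝ) / b| := by
  obtain ⟨b0, hb0, h⟩ := large_den hA hAP hK4 hK hκ hκ0
  have hb0R : (0 : ℝ) < b0 := by exact_mod_cast hb0
  refine ⟨((b0 : ℝ) ^ κ)⁻¹, by positivity, fun a b hb => ?_⟩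
  have hbR : (0 : ℝ) < b := by exact_mod_cast hb
  have h1 := h (a * b0) (b * b0) (Nat.le_mul_of_pos_left b0 hb)
  push_cast at h1
  rw [mul_div_mul_right _ _ hb0R.ne'] at h1
  refine le_trans (le_of_eq ?_) h1.le
  rw [Real.mul_rpow hbR.le hb0R.le, mul_inv, div_eq_mul_inv]
  ring

end

end Pool.Agent.J6H77.Z5
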