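import Pool.Agent.J6H77.Z5.HypN
import Pool.Agent.J6H77.Z5.MA
import Pool.Agent.Y801.Z5S.Fin

/-!
# Irrationality exponent of `ζ(5)`: final numerical assembly
-/

open Polynomial Pool.Agent.H337R2 Pool.Agent.H336R2.Z5 Pool.Agent.H312R.ZA Pool.Agent.Y801.Z5S

namespace Pool.Agent.J6H77.Z5

noncomputable section

open Pool.Agent.H312R.PC (lnA lnA_spec)

lemma clN_ok : okc 1000000 30 clN = true := by decide +kernel

lemma clN_ends : endsOK clN := okc_ends clN_ok

lemma clN_mass : J1 1000000 clN id = 13 := by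
  have h := J1_approx (D := 1000000) (by norm_num) 1 clN clN_ends id id (fun _ => 0) (fun y _ => by simp)
  have e1 : JI clN id = 13000000 := by decide +kernel
  have e2 : JE clN (fun _ => 0) = 0 := by decide +kernel
  rw [e1, e2] at h
  have h1 := abs_le.1 h
  push_cast at h1
  linarith [h1.1, h1.2]

lemma jT : 4 * 10 ^ 12 * 1000000 * 1000000 * J1 1000000 (lT 1000000 clN) (fun t => J1 1000000 (lS 1000000) (HH t)) ≤
    (5977696211239180875400000000 : ℝ) := by
  have h := JJ_spec (D := 1000000) (by norm_num) (lS 1000000) (lT 1000000 clN) (lS_ends 1000000) (lT_ends clN_ends)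
  have e1 : JI (lT 1000000 clN) (fun t => JI (lS 1000000) (HI t)) = 5977687408664194155400000000 := by decide +kernel
  have e2 : JE (lT 1000000 clN) (fun t => JE (lS 1000000) (HE t)) = 8802574986720000000000 := by decide +kernel
  rw [e1, e2] at h
  have h1 := (abs_le.1 h).2
  push_cast at h1
  linarith

lemma JI_app (l l' : List (ℕ × ℕ × ℕ)) (F : ℤ → ℤ) : JI (l ++ l') F = JI l F + JI l' F := by
  unfold JI
  rw [List.map_append, List.sum_append]

def lc0 : List (ℕ × ℕ × ℕ) :=
  [(16, 24, 500000), (24, 30, 1000000), (30, 31, 965829), (31, 32, 620735), (32, 33, 578274),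
    (33, 34, 498820), (34, 35, 450867)]

lemma jc0 : JI lc0 (fun t => JI clN (HI t)) = 5143797123085168622660733648 := by decide +kernel

def lc1 : List (ℕ × ℕ × ℕ) :=
  [(35, 36, 406677), (36, 37, 371265), (37, 38, 340067), (38, 40, 309896), (40, 42, 261042),
    (42, 44, 231612), (44, 46, 204459)]

lemma jc1 : JI lc1 (fun t => JI clN (HI t)) = 1173743025929966651446929586 := by decide +kernel

def lc2 : List (ℕ × ℕ × ℕ) :=
  [(46, 49, 181447), (49, 53, 151567), (53, 57, 125045), (57, 62, 105959), (62, 67, 86721), (67, 72, 73851),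
    (72, 77, 63113)]

lemma jc2 : JI lc2 (fun t => JI clN (HI t)) = 1345765774891844178863277228 := by decide +kernel

def lc3 : List (ℕ × ℕ × ℕ) :=
  [(77, 84, 54226), (84, 94, 43683), (94, 108, 33436), (108, 127, 24172), (127, 153, 16614),
    (153, 171, 10841), (171, 175, 8502)]

lemma jc3 : JI lc3 (fun t => JI clN (HI t)) = 1140723463466006966038015048 := by decide +kernel

def lc4 : List (ℕ × ℕ × ℕ) :=
  [(175, 274, 7809), (274, 308, 1442), (308, 340, 1849), (340, 352, 1607), (352, 454, 1379), (454, 520, 126)]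

lemma jc4 : JI lc4 (fun t => JI clN (HI t)) = 594992928327926810957199166 := by decide +kernel

lemma lT_split : lT 1000000 clN = (((lc0 ++ lc1) ++ lc2) ++ lc3) ++ lc4 := by decide +kernel


lemma jN : (9398964494820704325638474676 : ℝ) ≤
    4 * 10 ^ 12 * 1000000 * 1000000 * J1 1000000 (lT 1000000 clN) (fun t => J1 1000000 clN (HH t)) := by
  have h := JJ_spec (D := 1000000) (by norm_num) clN (lT 1000000 clN) clN_ends (lT_ends clN_ends)
  have e1 : JI (lT 1000000 clN) (fun t => JI clN (HI t)) = 9399022315700913229966154676 := by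
    rw [lT_split, JI_app, JI_app, JI_app, JI_app, jc0, jc1, jc2, jc3, jc4]
    norm_num
  have e2 : JE (lT 1000000 clN) (fun t => JE clN (HE t)) = 57820880208904327680000 := by decide +kernel
  rw [e1, e2] at h
  have h1 := (abs_le.1 h).1
  push_cast at h1
  linarith

lemma jP : 10 ^ 12 * 1000000 * J1 1000000 (lT 1000000 clN) Psi ≤ (84520207388417546816 : ℝ) := by
  have h := JP_spec (D := 1000000) (by norm_num) (lT 1000000 clN) (lT_ends clN_ends)
  have e1 : JI (lT 1000000 clN) PI' = 84520195840955746816 := by decide +kernel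
  have e2 : JE (lT 1000000 clN) (fun z => z * Pool.Agent.H312R.PC.lnE) = 11547461800000 := by decide +kernel
  rw [e1, e2] at h
  have h1 := (abs_le.1 h).2
  push_cast at h1
  linarith

lemma AW_le : AW 1000000 clN (58921 / 400) (1 / 200) (479 / 16) ≤ 5867021 / 10000 := by
  have h1 := Pool.Agent.Y801.Z5S.jS18
  have h2 := Pool.Agent.Y801.Z5S.jS16
  have h3 := Pool.Agent.Y801.Z5S.jS14
  have h4 := Pool.Agent.J6H77.Z5.jT
  have h5 := Pool.Agent.J6H77.Z5.jN
  have h6 := Pool.Agent.Y801.Z5S.const_bounds.2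
  have h7 := abs_le.mp (lnA_spec 4 (by norm_num) (by norm_num))
  have e4 : lnA 4 = 1386294361120 := by decide +kernel
  rw [e4] at h7
  push_cast at h7
  unfold AW
  linarith [h7.1, h7.2]

lemma V0_le : VW 1000000 clN 0 ≤ 170427 / 500 := by
  have h1 := Pool.Agent.J6H77.Z5.jP
  have h4 := abs_le.mp (lnA_spec 4 (by norm_num) (by norm_num))
  have h2 := abs_le.mp (lnA_spec 2 (by norm_num) (by norm_num))
  have e4 : lnA 4 = 1386294361120 := by decide +kernel
  have e2 : lnA 2 = 693147180560 := by decide +kernel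
  rw [e4] at h4
  rw [e2] at h2
  push_cast at h4 h2
  unfold VW
  rw [phi_zero, J1_ff0]
  linarith [h4.1, h4.2, h2.1, h2.2]

theorem archB : ArchB (5867021 / 10000) (170427 / 500 - 58921 / 400) := by
  have h := arch 1000000 (by norm_num) (by decide) clN clN_ok clN_mass _ _ _ hyp
  intro ε hε
  filter_upwards [h ε hε] with n hn x hx hD
  have h1 := hn x (hx.trans (Real.exp_le_exp.2 ?_)) hD
  · refine h1.trans ?_
    have h2 := Pool.Agent.J6H77.Z5.AW_le
    have h3 : (0 : ℝ) ≤ (n : ℝ) ^ 2 := by positivity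
    nlinarith
  · have h2 := V0_le
    have h3 : (0 : ℝ) ≤ (n : ℝ) := Nat.cast_nonneg n
    have h4 : (VW 1000000 clN 0 - 58921 / 400 + ε) * n ≤ (170427 / 500 - 58921 / 400 + ε) * n :=
      mul_le_mul_of_nonneg_right (by linarith) h3
    linarith

/-- **Irrationality exponent of `ζ(5)`** -/
theorem measure : ∃ c : ℝ, 0 < c ∧ ∀ (a : ℤ) (b : ℕ), 0 < b → c / (b : ℝ) ^ ((299 : ℝ) / 5) ≤ |zr 5 - (a : ℝ) / b| :=
  measure_of archB (K := 3088 / 10000) (by norm_num) (by norm_num) (by norm_num) (by norm_num) (by norm_num)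

end

end Pool.Agent.J6H77.Z5
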