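import Pool.Agent.J6H77.Z5.Rho

/-!
# The gain of the even thresholds, as a sum of tents
-/

open Polynomial Pool.Agent.H337R2 Pool.Agent.H336R2.Z5

namespace Pool.Agent.J6H77.Z5

noncomputable section

lemma two_sum (n p r : ℕ) (hr : ∀ i < r, (i + 1) * p ≤ 2 * n) :
    ∑ i ∈ Finset.range r, tn (2 * n) (i + 1) p = 2 * (n : ℝ) * r - p * ((r : ℝ) * (r + 1) / 2) := by
  induction r with
  | zero => simp
  | succ r ih =>
    rw [Finset.sum_range_succ, ih (fun i hi => hr i (by omega))]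
    unfold tn
    rw [Nat.cast_sub (hr r (by omega))]
    push_cast
    ring

theorem two_tents {n p : ℕ} (hp0 : 0 < p) (hpn : n < 128 * p) :
    ∑ j ∈ JC, tn (2 * n) j p = 2 * (n : ℝ) * ((2 * n / p : ℕ) : ℝ) -
      p * ((((2 * n / p : ℕ) : ℝ)) * (((2 * n / p : ℕ) : ℝ) + 1) / 2) := by
  have hk : 2 * n / p ≤ 5888 := by
    have : 2 * n / p < 5889 := by
      rw [Nat.div_lt_iff_lt_mul hp0]
      omega
    omega
  have hJ : JC = (Finset.range 5888).image (fun i => i + 1) := by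
    ext j
    simp only [Finset.mem_Icc, Finset.mem_image, Finset.mem_range]
    constructor
    · rintro ⟨h1, h2⟩
      exact ⟨j - 1, by omega, by omega⟩
    · rintro ⟨m, hm, rfl⟩
      exact ⟨by omega, by omega⟩
  have h1 : ∑ j ∈ JC, tn (2 * n) j p = ∑ i ∈ Finset.range 5888, tn (2 * n) (i + 1) p := by
    rw [hJ, Finset.sum_image]
    intro a _ b _ h
    have h' : a + 1 = b + 1 := h
    omega
  have h2 : ∑ i ∈ Finset.range 5888, tn (2 * n) (i + 1) p =
      ∑ i ∈ Finset.range (2 * n / p), tn (2 * n) (i + 1) p := by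
    symm
    apply Finset.sum_subset
    · intro i hi
      rw [Finset.mem_range] at hi ⊢
      omega
    · intro i _ hi
      rw [Finset.mem_range, not_lt] at hi
      unfold tn
      have h3 : ¬ (i + 1 ≤ 2 * n / p) := by omega
      rw [Nat.le_div_iff_mul_le hp0, not_le] at h3
      rw [Nat.sub_eq_zero_of_le h3.le, Nat.cast_zero]
  rw [h1, h2, two_sum]
  intro i hi
  have h3 : i + 1 ≤ 2 * n / p := hi
  rwa [Nat.le_div_iff_mul_le hp0] at h3

/-- the distance of `2n/p` to the nearest integer, times `p/2`, as a sum of tents -/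
theorem gain {n p : ℕ} (hp : p.Prime) (hpn : n < 128 * p) :
    (n : ℝ) - 1 / 2 * ∑ j ∈ JC.filter Odd, tn (4 * n) j p + ∑ j ∈ JC, tn (2 * n) j p = n - p * (rh n p : ℝ) / 2 ∨
    (n : ℝ) - 1 / 2 * ∑ j ∈ JC.filter Odd, tn (4 * n) j p + ∑ j ∈ JC, tn (2 * n) j p = -(n - p * (rh n p : ℝ) / 2) := by
  have hp0 := hp.pos
  have h1 := N3_rho hp hpn
  have h2 := two_tents hp0 hpn
  obtain ⟨k, hk⟩ : ∃ k : ℕ, k = 2 * n / p := ⟨_, rfl⟩
  have hrk : rh n p = k ∨ rh n p = k + 1 := by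
    have a1 : 2 * n = p * k + 2 * n % p := by rw [hk]; exact (Nat.div_add_mod _ _).symm
    have a2 : 2 * n % p < p := Nat.mod_lt _ hp0
    obtain ⟨s, hs⟩ : ∃ s, s = 2 * n % p := ⟨_, rfl⟩
    rw [← hs] at a1 a2
    have a3 : 4 * n + p = (2 * s + p) + (2 * p) * k := by
      have : 4 * n = 2 * (p * k + s) := by omega
      rw [this]; ring
    unfold rh
    rw [a3, Nat.add_mul_div_left _ _ (by omega : 0 < 2 * p)]
    have a4 : (2 * s + p) / (2 * p) < 2 := by
      rw [Nat.div_lt_iff_lt_mul (by omega)]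
      omega
    obtain ⟨q, hq⟩ : ∃ q, q = (2 * s + p) / (2 * p) := ⟨_, rfl⟩
    rw [← hq] at a4 ⊢
    clear hq a3 a1 hk
    omega
  rw [← hk] at h2
  rcases hrk with h | h
  · left
    rw [h] at h1 ⊢
    rw [h2]
    linarith
  · right
    rw [h] at h1 ⊢
    rw [h2]
    push_cast at h1 ⊢
    linarith

end

end Pool.Agent.J6H77.Z5
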