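import Pool.Agent.Y801.Z5S.Cells
import Pool.Agent.J6H77.Z5.CkA
import Pool.Agent.J6H77.Z5.CkB
import Pool.Agent.J6H77.Z5.CkC
import Pool.Agent.J6H77.Z5.CkD

/-!
# The hypotheses on the cells
-/

open Pool.Agent.H312R.ZA Pool.Agent.Y801.Z5S

namespace Pool.Agent.J6H77.Z5

open Pool.Agent.H312R.PC (EF lnA lnA_spec ngl EF_neg)

lemma EF_up (v : ℝ) (h1 : 30 ≤ v) (h2 : v ≤ 700) : EF 1000000 64 lUm v ≤ (-1307 : ℝ) / 50 := by
  have s0 : (1920 : ℝ) / 64 ≤ v → v ≤ (2051 : ℝ) / 64 → EF 1000000 64 lUm v ≤ (-1307 : ℝ) / 50 := fun ha hb =>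
    chkL_spec (D := 1000000) (M := 64) (by norm_num) (by norm_num) (by norm_num) (A := -1672960000000000000000) _ (by norm_num) st0
      1920 (by decide) ck0 v (by norm_num; linarith) (by rw [en0]; norm_num; linarith)
  have s1 : (2051 : ℝ) / 64 ≤ v → v ≤ (2168 : ℝ) / 64 → EF 1000000 64 lUm v ≤ (-1307 : ℝ) / 50 := fun ha hb =>
    chkL_spec (D := 1000000) (M := 64) (by norm_num) (by norm_num) (by norm_num) (A := -1672960000000000000000) _ (by norm_num) st1
      2051 (by decide) ck1 v (by norm_num; linarith) (by rw [en1]; norm_num; linarith)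
  have s2 : (2168 : ℝ) / 64 ≤ v → v ≤ (2269 : ℝ) / 64 → EF 1000000 64 lUm v ≤ (-1307 : ℝ) / 50 := fun ha hb =>
    chkL_spec (D := 1000000) (M := 64) (by norm_num) (by norm_num) (by norm_num) (A := -1672960000000000000000) _ (by norm_num) st2
      2168 (by decide) ck2 v (by norm_num; linarith) (by rw [en2]; norm_num; linarith)
  have s3 : (2269 : ℝ) / 64 ≤ v → v ≤ (2390 : ℝ) / 64 → EF 1000000 64 lUm v ≤ (-1307 : ℝ) / 50 := fun ha hb =>
    chkL_spec (D := 1000000) (M := 64) (by norm_num) (by norm_num) (by norm_num) (A := -1672960000000000000000) _ (by norm_num) st3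
      2269 (by decide) ck3 v (by norm_num; linarith) (by rw [en3]; norm_num; linarith)
  have s4 : (2390 : ℝ) / 64 ≤ v → v ≤ (2580 : ℝ) / 64 → EF 1000000 64 lUm v ≤ (-1307 : ℝ) / 50 := fun ha hb =>
    chkL_spec (D := 1000000) (M := 64) (by norm_num) (by norm_num) (by norm_num) (A := -1672960000000000000000) _ (by norm_num) st4
      2390 (by decide) ck4 v (by norm_num; linarith) (by rw [en4]; norm_num; linarith)
  have s5 : (2580 : ℝ) / 64 ≤ v → v ≤ (2754 : ℝ) / 64 → EF 1000000 64 lUm v ≤ (-1307 : ℝ) / 50 := fun ha hb =>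
    chkL_spec (D := 1000000) (M := 64) (by norm_num) (by norm_num) (by norm_num) (A := -1672960000000000000000) _ (by norm_num) st5
      2580 (by decide) ck5 v (by norm_num; linarith) (by rw [en5]; norm_num; linarith)
  have s6 : (2754 : ℝ) / 64 ≤ v → v ≤ (2969 : ℝ) / 64 → EF 1000000 64 lUm v ≤ (-1307 : ℝ) / 50 := fun ha hb =>
    chkL_spec (D := 1000000) (M := 64) (by norm_num) (by norm_num) (by norm_num) (A := -1672960000000000000000) _ (by norm_num) st6
      2754 (by decide) ck6 v (by norm_num; linarith) (by rw [en6]; norm_num; linarith)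
  have s7 : (2969 : ℝ) / 64 ≤ v → v ≤ (3237 : ℝ) / 64 → EF 1000000 64 lUm v ≤ (-1307 : ℝ) / 50 := fun ha hb =>
    chkL_spec (D := 1000000) (M := 64) (by norm_num) (by norm_num) (by norm_num) (A := -1672960000000000000000) _ (by norm_num) st7
      2969 (by decide) ck7 v (by norm_num; linarith) (by rw [en7]; norm_num; linarith)
  have s8 : (3237 : ℝ) / 64 ≤ v → v ≤ (3644 : ℝ) / 64 → EF 1000000 64 lUm v ≤ (-1307 : ℝ) / 50 := fun ha hb =>
    chkL_spec (D := 1000000) (M := 64) (by norm_num) (by norm_num) (by norm_num) (A := -1672960000000000000000) _ (by norm_num) st8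
      3237 (by decide) ck8 v (by norm_num; linarith) (by rw [en8]; norm_num; linarith)
  have s9 : (3644 : ℝ) / 64 ≤ v → v ≤ (3992 : ℝ) / 64 → EF 1000000 64 lUm v ≤ (-1307 : ℝ) / 50 := fun ha hb =>
    chkL_spec (D := 1000000) (M := 64) (by norm_num) (by norm_num) (by norm_num) (A := -1672960000000000000000) _ (by norm_num) st9
      3644 (by decide) ck9 v (by norm_num; linarith) (by rw [en9]; norm_num; linarith)
  have s10 : (3992 : ℝ) / 64 ≤ v → v ≤ (4324 : ℝ) / 64 → EF 1000000 64 lUm v ≤ (-1307 : ℝ) / 50 := fun ha hb =>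
    chkL_spec (D := 1000000) (M := 64) (by norm_num) (by norm_num) (by norm_num) (A := -1672960000000000000000) _ (by norm_num) st10
      3992 (by decide) ck10 v (by norm_num; linarith) (by rw [en10]; norm_num; linarith)
  have s11 : (4324 : ℝ) / 64 ≤ v → v ≤ (4675 : ℝ) / 64 → EF 1000000 64 lUm v ≤ (-1307 : ℝ) / 50 := fun ha hb =>
    chkL_spec (D := 1000000) (M := 64) (by norm_num) (by norm_num) (by norm_num) (A := -1672960000000000000000) _ (by norm_num) st11
      4324 (by decide) ck11 v (by norm_num; linarith) (by rw [en11]; norm_num; linarith)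
  have s12 : (4675 : ℝ) / 64 ≤ v → v ≤ (5037 : ℝ) / 64 → EF 1000000 64 lUm v ≤ (-1307 : ℝ) / 50 := fun ha hb =>
    chkL_spec (D := 1000000) (M := 64) (by norm_num) (by norm_num) (by norm_num) (A := -1672960000000000000000) _ (by norm_num) st12
      4675 (by decide) ck12 v (by norm_num; linarith) (by rw [en12]; norm_num; linarith)
  have s13 : (5037 : ℝ) / 64 ≤ v → v ≤ (5523 : ℝ) / 64 → EF 1000000 64 lUm v ≤ (-1307 : ℝ) / 50 := fun ha hb =>
    chkL_spec (D := 1000000) (M := 64) (by norm_num) (by norm_num) (by norm_num) (A := -1672960000000000000000) _ (by norm_num) st13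
      5037 (by decide) ck13 v (by norm_num; linarith) (by rw [en13]; norm_num; linarith)
  have s14 : (5523 : ℝ) / 64 ≤ v → v ≤ (6164 : ℝ) / 64 → EF 1000000 64 lUm v ≤ (-1307 : ℝ) / 50 := fun ha hb =>
    chkL_spec (D := 1000000) (M := 64) (by norm_num) (by norm_num) (by norm_num) (A := -1672960000000000000000) _ (by norm_num) st14
      5523 (by decide) ck14 v (by norm_num; linarith) (by rw [en14]; norm_num; linarith)
  have s15 : (6164 : ℝ) / 64 ≤ v → v ≤ (7035 : ℝ) / 64 → EF 1000000 64 lUm v ≤ (-1307 : ℝ) / 50 := fun ha hb =>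
    chkL_spec (D := 1000000) (M := 64) (by norm_num) (by norm_num) (by norm_num) (A := -1672960000000000000000) _ (by norm_num) st15
      6164 (by decide) ck15 v (by norm_num; linarith) (by rw [en15]; norm_num; linarith)
  have s16 : (7035 : ℝ) / 64 ≤ v → v ≤ (7737 : ℝ) / 64 → EF 1000000 64 lUm v ≤ (-1307 : ℝ) / 50 := fun ha hb =>
    chkL_spec (D := 1000000) (M := 64) (by norm_num) (by norm_num) (by norm_num) (A := -1672960000000000000000) _ (by norm_num) st16
      7035 (by decide) ck16 v (by norm_num; linarith) (by rw [en16]; norm_num; linarith)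
  have s17 : (7737 : ℝ) / 64 ≤ v → v ≤ (8463 : ℝ) / 64 → EF 1000000 64 lUm v ≤ (-1307 : ℝ) / 50 := fun ha hb =>
    chkL_spec (D := 1000000) (M := 64) (by norm_num) (by norm_num) (by norm_num) (A := -1672960000000000000000) _ (by norm_num) st17
      7737 (by decide) ck17 v (by norm_num; linarith) (by rw [en17]; norm_num; linarith)
  have s18 : (8463 : ℝ) / 64 ≤ v → v ≤ (9879 : ℝ) / 64 → EF 1000000 64 lUm v ≤ (-1307 : ℝ) / 50 := fun ha hb =>
    chkL_spec (D := 1000000) (M := 64) (by norm_num) (by norm_num) (by norm_num) (A := -1672960000000000000000) _ (by norm_num) st18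
      8463 (by decide) ck18 v (by norm_num; linarith) (by rw [en18]; norm_num; linarith)
  have s19 : (9879 : ℝ) / 64 ≤ v → v ≤ (10343 : ℝ) / 64 → EF 1000000 64 lUm v ≤ (-1307 : ℝ) / 50 := fun ha hb =>
    chkL_spec (D := 1000000) (M := 64) (by norm_num) (by norm_num) (by norm_num) (A := -1672960000000000000000) _ (by norm_num) st19
      9879 (by decide) ck19 v (by norm_num; linarith) (by rw [en19]; norm_num; linarith)
  have s20 : (10343 : ℝ) / 64 ≤ v → v ≤ (11074 : ℝ) / 64 → EF 1000000 64 lUm v ≤ (-1307 : ℝ) / 50 := fun ha hb =>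
    chkL_spec (D := 1000000) (M := 64) (by norm_num) (by norm_num) (by norm_num) (A := -1672960000000000000000) _ (by norm_num) st20
      10343 (by decide) ck20 v (by norm_num; linarith) (by rw [en20]; norm_num; linarith)
  have s21 : (11074 : ℝ) / 64 ≤ v → v ≤ (11686 : ℝ) / 64 → EF 1000000 64 lUm v ≤ (-1307 : ℝ) / 50 := fun ha hb =>
    chkL_spec (D := 1000000) (M := 64) (by norm_num) (by norm_num) (by norm_num) (A := -1672960000000000000000) _ (by norm_num) st21
      11074 (by decide) ck21 v (by norm_num; linarith) (by rw [en21]; norm_num; linarith)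
  have s22 : (11686 : ℝ) / 64 ≤ v → v ≤ (17094 : ℝ) / 64 → EF 1000000 64 lUm v ≤ (-1307 : ℝ) / 50 := fun ha hb =>
    chkL_spec (D := 1000000) (M := 64) (by norm_num) (by norm_num) (by norm_num) (A := -1672960000000000000000) _ (by norm_num) st22
      11686 (by decide) ck22 v (by norm_num; linarith) (by rw [en22]; norm_num; linarith)
  have s23 : (17094 : ℝ) / 64 ≤ v → v ≤ (19500 : ℝ) / 64 → EF 1000000 64 lUm v ≤ (-1307 : ℝ) / 50 := fun ha hb =>
    chkL_spec (D := 1000000) (M := 64) (by norm_num) (by norm_num) (by norm_num) (A := -1672960000000000000000) _ (by norm_num) st23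
      17094 (by decide) ck23 v (by norm_num; linarith) (by rw [en23]; norm_num; linarith)
  have s24 : (19500 : ℝ) / 64 ≤ v → v ≤ (20050 : ℝ) / 64 → EF 1000000 64 lUm v ≤ (-1307 : ℝ) / 50 := fun ha hb =>
    chkL_spec (D := 1000000) (M := 64) (by norm_num) (by norm_num) (by norm_num) (A := -1672960000000000000000) _ (by norm_num) st24
      19500 (by decide) ck24 v (by norm_num; linarith) (by rw [en24]; norm_num; linarith)
  have s25 : (20050 : ℝ) / 64 ≤ v → v ≤ (20573 : ℝ) / 64 → EF 1000000 64 lUm v ≤ (-1307 : ℝ) / 50 := fun ha hb =>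
    chkL_spec (D := 1000000) (M := 64) (by norm_num) (by norm_num) (by norm_num) (A := -1672960000000000000000) _ (by norm_num) st25
      20050 (by decide) ck25 v (by norm_num; linarith) (by rw [en25]; norm_num; linarith)
  have s26 : (20573 : ℝ) / 64 ≤ v → v ≤ (21161 : ℝ) / 64 → EF 1000000 64 lUm v ≤ (-1307 : ℝ) / 50 := fun ha hb =>
    chkL_spec (D := 1000000) (M := 64) (by norm_num) (by norm_num) (by norm_num) (A := -1672960000000000000000) _ (by norm_num) st26
      20573 (by decide) ck26 v (by norm_num; linarith) (by rw [en26]; norm_num; linarith)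
  have s27 : (21161 : ℝ) / 64 ≤ v → v ≤ (21847 : ℝ) / 64 → EF 1000000 64 lUm v ≤ (-1307 : ℝ) / 50 := fun ha hb =>
    chkL_spec (D := 1000000) (M := 64) (by norm_num) (by norm_num) (by norm_num) (A := -1672960000000000000000) _ (by norm_num) st27
      21161 (by decide) ck27 v (by norm_num; linarith) (by rw [en27]; norm_num; linarith)
  have s28 : (21847 : ℝ) / 64 ≤ v → v ≤ (22400 : ℝ) / 64 → EF 1000000 64 lUm v ≤ (-1307 : ℝ) / 50 := fun ha hb =>
    chkL_spec (D := 1000000) (M := 64) (by norm_num) (by norm_num) (by norm_num) (A := -1672960000000000000000) _ (by norm_num) st28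
      21847 (by decide) ck28 v (by norm_num; linarith) (by rw [en28]; norm_num; linarith)
  have s29 : (22400 : ℝ) / 64 ≤ v → v ≤ (23009 : ℝ) / 64 → EF 1000000 64 lUm v ≤ (-1307 : ℝ) / 50 := fun ha hb =>
    chkL_spec (D := 1000000) (M := 64) (by norm_num) (by norm_num) (by norm_num) (A := -1672960000000000000000) _ (by norm_num) st29
      22400 (by decide) ck29 v (by norm_num; linarith) (by rw [en29]; norm_num; linarith)
  have s30 : (23009 : ℝ) / 64 ≤ v → v ≤ (24747 : ℝ) / 64 → EF 1000000 64 lUm v ≤ (-1307 : ℝ) / 50 := fun ha hb =>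
    chkL_spec (D := 1000000) (M := 64) (by norm_num) (by norm_num) (by norm_num) (A := -1672960000000000000000) _ (by norm_num) st30
      23009 (by decide) ck30 v (by norm_num; linarith) (by rw [en30]; norm_num; linarith)
  have s31 : (24747 : ℝ) / 64 ≤ v → v ≤ (28584 : ℝ) / 64 → EF 1000000 64 lUm v ≤ (-1307 : ℝ) / 50 := fun ha hb =>
    chkL_spec (D := 1000000) (M := 64) (by norm_num) (by norm_num) (by norm_num) (A := -1672960000000000000000) _ (by norm_num) st31
      24747 (by decide) ck31 v (by norm_num; linarith) (by rw [en31]; norm_num; linarith)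
  have s32 : (28584 : ℝ) / 64 ≤ v → v ≤ (30254 : ℝ) / 64 → EF 1000000 64 lUm v ≤ (-1307 : ℝ) / 50 := fun ha hb =>
    chkL_spec (D := 1000000) (M := 64) (by norm_num) (by norm_num) (by norm_num) (A := -1672960000000000000000) _ (by norm_num) st32
      28584 (by decide) ck32 v (by norm_num; linarith) (by rw [en32]; norm_num; linarith)
  have s33 : (30254 : ℝ) / 64 ≤ v → v ≤ (30864 : ℝ) / 64 → EF 1000000 64 lUm v ≤ (-1307 : ℝ) / 50 := fun ha hb =>
    chkL_spec (D := 1000000) (M := 64) (by norm_num) (by norm_num) (by norm_num) (A := -1672960000000000000000) _ (by norm_num) st33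
      30254 (by decide) ck33 v (by norm_num; linarith) (by rw [en33]; norm_num; linarith)
  have s34 : (30864 : ℝ) / 64 ≤ v → v ≤ (31920 : ℝ) / 64 → EF 1000000 64 lUm v ≤ (-1307 : ℝ) / 50 := fun ha hb =>
    chkL_spec (D := 1000000) (M := 64) (by norm_num) (by norm_num) (by norm_num) (A := -1672960000000000000000) _ (by norm_num) st34
      30864 (by decide) ck34 v (by norm_num; linarith) (by rw [en34]; norm_num; linarith)
  have s35 : (31920 : ℝ) / 64 ≤ v → v ≤ (34622 : ℝ) / 64 → EF 1000000 64 lUm v ≤ (-1307 : ℝ) / 50 := fun ha hb =>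
    chkL_spec (D := 1000000) (M := 64) (by norm_num) (by norm_num) (by norm_num) (A := -1672960000000000000000) _ (by norm_num) st35
      31920 (by decide) ck35 v (by norm_num; linarith) (by rw [en35]; norm_num; linarith)
  have s36 : (34622 : ℝ) / 64 ≤ v → v ≤ (41545 : ℝ) / 64 → EF 1000000 64 lUm v ≤ (-1307 : ℝ) / 50 := fun ha hb =>
    chkL_spec (D := 1000000) (M := 64) (by norm_num) (by norm_num) (by norm_num) (A := -1672960000000000000000) _ (by norm_num) st36
      34622 (by decide) ck36 v (by norm_num; linarith) (by rw [en36]; norm_num; linarith)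
  have s37 : (41545 : ℝ) / 64 ≤ v → v ≤ (44800 : ℝ) / 64 → EF 1000000 64 lUm v ≤ (-1307 : ℝ) / 50 := fun ha hb =>
    chkL_spec (D := 1000000) (M := 64) (by norm_num) (by norm_num) (by norm_num) (A := -1672960000000000000000) _ (by norm_num) st37
      41545 (by decide) ck37 v (by norm_num; linarith) (by rw [en37]; norm_num; linarith)
  rcases le_total v ((2051 : ℝ) / 64) with k0 | k0
  · exact s0 (by linarith) k0
  rcases le_total v ((2168 : ℝ) / 64) with k1 | k1
  · exact s1 (by linarith) k1
  rcases le_total v ((2269 : ℝ) / 64) with k2 | k2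
  · exact s2 (by linarith) k2
  rcases le_total v ((2390 : ℝ) / 64) with k3 | k3
  · exact s3 (by linarith) k3
  rcases le_total v ((2580 : ℝ) / 64) with k4 | k4
  · exact s4 (by linarith) k4
  rcases le_total v ((2754 : ℝ) / 64) with k5 | k5
  · exact s5 (by linarith) k5
  rcases le_total v ((2969 : ℝ) / 64) with k6 | k6
  · exact s6 (by linarith) k6
  rcases le_total v ((3237 : ℝ) / 64) with k7 | k7
  · exact s7 (by linarith) k7
  rcases le_total v ((3644 : ℝ) / 64) with k8 | k8
  · exact s8 (by linarith) k8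
  rcases le_total v ((3992 : ℝ) / 64) with k9 | k9
  · exact s9 (by linarith) k9
  rcases le_total v ((4324 : ℝ) / 64) with k10 | k10
  · exact s10 (by linarith) k10
  rcases le_total v ((4675 : ℝ) / 64) with k11 | k11
  · exact s11 (by linarith) k11
  rcases le_total v ((5037 : ℝ) / 64) with k12 | k12
  · exact s12 (by linarith) k12
  rcases le_total v ((5523 : ℝ) / 64) with k13 | k13
  · exact s13 (by linarith) k13
  rcases le_total v ((6164 : ℝ) / 64) with k14 | k14
  · exact s14 (by linarith) k14
  rcases le_total v ((7035 : ℝ) / 64) with k15 | k15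
  · exact s15 (by linarith) k15
  rcases le_total v ((7737 : ℝ) / 64) with k16 | k16
  · exact s16 (by linarith) k16
  rcases le_total v ((8463 : ℝ) / 64) with k17 | k17
  · exact s17 (by linarith) k17
  rcases le_total v ((9879 : ℝ) / 64) with k18 | k18
  · exact s18 (by linarith) k18
  rcases le_total v ((10343 : ℝ) / 64) with k19 | k19
  · exact s19 (by linarith) k19
  rcases le_total v ((11074 : ℝ) / 64) with k20 | k20
  · exact s20 (by linarith) k20
  rcases le_total v ((11686 : ℝ) / 64) with k21 | k21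
  · exact s21 (by linarith) k21
  rcases le_total v ((17094 : ℝ) / 64) with k22 | k22
  · exact s22 (by linarith) k22
  rcases le_total v ((19500 : ℝ) / 64) with k23 | k23
  · exact s23 (by linarith) k23
  rcases le_total v ((20050 : ℝ) / 64) with k24 | k24
  · exact s24 (by linarith) k24
  rcases le_total v ((20573 : ℝ) / 64) with k25 | k25
  · exact s25 (by linarith) k25
  rcases le_total v ((21161 : ℝ) / 64) with k26 | k26
  · exact s26 (by linarith) k26
  rcases le_total v ((21847 : ℝ) / 64) with k27 | k27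
  · exact s27 (by linarith) k27
  rcases le_total v ((22400 : ℝ) / 64) with k28 | k28
  · exact s28 (by linarith) k28
  rcases le_total v ((23009 : ℝ) / 64) with k29 | k29
  · exact s29 (by linarith) k29
  rcases le_total v ((24747 : ℝ) / 64) with k30 | k30
  · exact s30 (by linarith) k30
  rcases le_total v ((28584 : ℝ) / 64) with k31 | k31
  · exact s31 (by linarith) k31
  rcases le_total v ((30254 : ℝ) / 64) with k32 | k32
  · exact s32 (by linarith) k32
  rcases le_total v ((30864 : ℝ) / 64) with k33 | k33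
  · exact s33 (by linarith) k33
  rcases le_total v ((31920 : ℝ) / 64) with k34 | k34
  · exact s34 (by linarith) k34
  rcases le_total v ((34622 : ℝ) / 64) with k35 | k35
  · exact s35 (by linarith) k35
  rcases le_total v ((41545 : ℝ) / 64) with k36 | k36
  · exact s36 (by linarith) k36
  exact s37 (by linarith) (by linarith)

lemma EF_lo1 (v : ℝ) (h1 : 16 ≤ v) (h2 : v ≤ 479 / 16) : EF 1000000 64 (ngl lUm) v ≤ (261399 : ℝ) / 10000 :=
  chkL_spec (D := 1000000) (M := 64) (by norm_num) (by norm_num) (by norm_num) (A := 1672953600000000000000) _ (by norm_num) _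
    1024 (by decide) ckL1 v (by norm_num; linarith) (by
      have : endL 1024 [128, 384, 250, 99, 29, 2] = 1916 := by decide +kernel
      rw [this]; norm_num; linarith)

lemma EF_lo2 (v : ℝ) (h1 : 479 / 16 ≤ v) (h2 : v ≤ 30) : EF 1000000 64 (ngl lUm) v ≤ (261449 : ℝ) / 10000 :=
  chkL_spec (D := 1000000) (M := 64) (by norm_num) (by norm_num) (by norm_num) (A := 1673273600000000000000) _ (by norm_num) _
    1916 (by decide) ckL2 v (by norm_num; linarith) (by
      have : endL 1916 [4] = 1920 := by decide +kernel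
      rw [this]; norm_num; linarith)

theorem hyp : Hyp 1000000 clN (58921 / 400) (1 / 200) (479 / 16) where
  hlam := by norm_num
  hδ := by norm_num
  hθ := by norm_num
  up := by
    intro v h1 h2
    rw [VW_eq (M := 64) (by norm_num) (by norm_num), mrg_eq]
    have h3 := EF_up v h1 h2
    have h4 := Pool.Agent.Y801.Z5S.const_bounds.2
    linarith
  lo := by
    intro v h1 h2
    rw [VW_eq (M := 64) (by norm_num) (by norm_num), mrg_eq]
    have h4 := Pool.Agent.Y801.Z5S.const_bounds.1
    rcases le_total v (479 / 16) with h3 | h3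
    · have h5 := EF_lo1 v h1 h3
      rw [EF_neg] at h5
      have h6 : (0 : ℝ) ≤ (if (479 / 16 : ℝ) ≤ v then ((1 : ℝ) / 200) else 0) := by
        split_ifs
        · norm_num
        · exact le_rfl
      linarith
    · have h5 := EF_lo2 v h3 h2
      rw [EF_neg] at h5
      rw [if_pos h3]
      linarith

end Pool.Agent.J6H77.Z5
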