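import Pool.Agent.J6H77.Z5.Floor
import Pool.Agent.H336R2.Z5.P41
import Pool.Agent.H336R2.HD.F2pre

/-!
# The limits of the prime sums, range `p > n/128`
-/

open Polynomial Pool.Agent.H337R2 Pool.Agent.H336R2.Z5 Filter Topology
open Pool.Agent.H336R2.HD (Lm Lm.add Lm.sub Lm.mul Lm.sum Lm.of_eq)

namespace Pool.Agent.J6H77.Z5

noncomputable section

theorem N5_floor (α : ℕ) (lo hi : ℚ) (h0 : 1 / 128 ≤ lo) (h1 : lo ≤ hi) (h2 : hi ≤ 48) (hα : α ≤ 46) :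
    Tendsto (fun n : ℕ => (∑ p ∈ PS lo hi n, (n : ℝ) * ((α * n / p : ℕ) : ℝ) * Real.log p) / (n : ℝ) ^ 2) atTop
      (𝓝 ((IflC α lo hi : ℚ) : ℝ)) :=
  FLO.F1_floor_of P5_const α lo hi h0 h1 h2 hα

theorem N5_A : Tendsto (fun n : ℕ => (∑ p ∈ PS (1 / 128) 12 n, EN n p * Real.log p) / (n : ℝ) ^ 2) atTop (𝓝 (LN : ℝ)) := by
  have T : ∀ α j : ℕ, j ∈ JC → Lm (PS ((1 / 128 : ℚ) : ℝ) ((12 : ℚ) : ℝ)) (fun n p => tn (α * n) j p)
      ((It α j (1 / 128) 12 : ℚ) : ℝ) := fun α j hj =>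
    P5_tent α j (Finset.mem_Icc.mp hj).1 (1 / 128) 12 (by norm_num) (by norm_num) (by norm_num)
  have T1 : ∀ j : ℕ, j ∈ JC → Lm (PS ((1 / 128 : ℚ) : ℝ) ((12 : ℚ) : ℝ)) (fun n p => tn n j p)
      ((It 1 j (1 / 128) 12 : ℚ) : ℝ) := fun j hj =>
    (T 1 j hj).of_eq rfl (fun n p => by rw [one_mul]) rfl
  have F : ∀ α : ℕ, α ≤ 46 → Lm (PS ((1 / 128 : ℚ) : ℝ) ((12 : ℚ) : ℝ)) (fun n p => (n : ℝ) * ((α * n / p : ℕ) : ℝ))
      ((IflC α (1 / 128) 12 : ℚ) : ℝ) := fun α hα =>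
    N5_floor α (1 / 128) 12 (by norm_num) (by norm_num) (by norm_num) hα
  have K : Lm (PS ((1 / 128 : ℚ) : ℝ) ((12 : ℚ) : ℝ)) (fun n _ => (n : ℝ)) (((12 - 1 / 128 : ℚ)) : ℝ) :=
    P5_const (1 / 128) 12 (by norm_num) (by norm_num) (by norm_num)
  have SX := Lm.sum JC (fun j hj => ((((((T 18 j hj).add ((T 17 j hj).mul 2)).add ((T 16 j hj).mul 3)).add
    ((T 15 j hj).mul 2)).add (T 14 j hj)).sub ((T1 j hj).mul 4)).sub ((T 2 j hj).mul 3))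
  have H := ((K.mul 90).sub ((((F 18 (by norm_num)).add (F 16 (by norm_num))).add (F 14 (by norm_num))).mul 46)).add SX
  refine Lm.of_eq H ?_ ?_ ?_
  · push_cast; rfl
  · intro n p
    unfold EN vv
    push_cast
    ring
  · unfold LN
    push_cast
    ring

theorem N5_U :
    Tendsto (fun n : ℕ => (∑ p ∈ PS (1 / 128) 46 n, (∑ j ∈ JC, tn (46 * n) j p) * Real.log p) / (n : ℝ) ^ 2)
      atTop (𝓝 (LV : ℝ)) := by
  have T : ∀ α j : ℕ, j ∈ JC → Lm (PS ((1 / 128 : ℚ) : ℝ) ((46 : ℚ) : ℝ)) (fun n p => tn (α * n) j p)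
      ((It α j (1 / 128) 46 : ℚ) : ℝ) := fun α j hj =>
    P5_tent α j (Finset.mem_Icc.mp hj).1 (1 / 128) 46 (by norm_num) (by norm_num) (by norm_num)
  have H := Lm.sum JC (fun j hj => T 46 j hj)
  refine Lm.of_eq H ?_ ?_ ?_
  · push_cast; rfl
  · intro n p
    rfl
  · unfold LV
    push_cast
    rfl

end

end Pool.Agent.J6H77.Z5
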