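import Pool.Agent.J6H77.Z5.Gain
import Pool.Agent.J6H77.Z5.Sums
import Pool.Agent.H336R2.Z5.P26

/-!
# Even thresholds: the exponent for the primes `n/128 < p < 12 n`
-/

open Polynomial Pool.Agent.H337R2 Pool.Agent.H336R2.Z5

namespace Pool.Agent.J6H77.Z5

noncomputable section

lemma cnt_le' {p A B r n : ℕ} (hp : 0 < p) (hpn : n < 128 * p) (hAB : A ≤ B + 1)
    (hB : B ≤ A + 18 * n) : cnt p A B r ≤ 2304 := by
  have h1 := Pool.Agent.H336R2.HD.E3_cnt_le p A B r hp hAB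
  have hp' : (0 : ℤ) < p := by exact_mod_cast hp
  have h2 : ((B : ℤ) - A + 1) / p < 2304 := by
    apply Int.ediv_lt_of_lt_mul hp'
    have h3 : (B : ℤ) ≤ A + 18 * n := by exact_mod_cast hB
    have h4 : (n : ℤ) < 128 * p := by exact_mod_cast hpn
    linarith
  omega

lemma sr_le' {n p : ℕ} (hp : 0 < p) (hpn : n < 128 * p) (r : ℕ) : sr n p r ≤ 6912 := by
  unfold sr
  have h1 := cnt_le' (r := r) (A := 3 * n) (B := 21 * n) hp hpn (by omega) (by omega)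
  have h2 := cnt_le' (r := r) (A := 4 * n) (B := 20 * n) hp hpn (by omega) (by omega)
  have h3 := cnt_le' (r := r) (A := 5 * n) (B := 19 * n) hp hpn (by omega) (by omega)
  omega

lemma rh_le' {n p : ℕ} (hp : 0 < p) (hpn : n < 128 * p) : rh n p ≤ 256 := by
  unfold rh
  apply Nat.le_of_lt_succ
  rw [Nat.div_lt_iff_lt_mul (by omega)]
  omega

lemma vv_le' {n p : ℕ} (hp : 0 < p) (hpn : n < 128 * p) : vv n p ≤ 12288 := by
  unfold vv
  have h1 : 18 * n / p < 2304 := by rw [Nat.div_lt_iff_lt_mul hp]; omega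
  have h2 : 16 * n / p < 2048 := by rw [Nat.div_lt_iff_lt_mul hp]; omega
  have h3 : 14 * n / p < 1792 := by rw [Nat.div_lt_iff_lt_mul hp]; omega
  omega

/-- the cost of a class, even thresholds -/
lemma TT_even (d : ℤ) : TT (2 * d) ≤ d ^ 2 + d := by
  unfold TT
  split_ifs with h
  · have e : (2 * d + 1) ^ 2 = 1 + 4 * (d ^ 2 + d) := by ring
    rw [e, Int.add_mul_ediv_left _ _ (by norm_num)]
    norm_num
  · rcases eq_or_lt_of_le (show d ≤ 0 by omega) with h1 | h1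
    · rw [h1]; norm_num
    · nlinarith

lemma TT_even' (d : ℤ) : TT (2 * d - 2) ≤ d ^ 2 - d := by
  have h := TT_even (d - 1)
  have e : 2 * (d - 1) = 2 * d - 2 := by ring
  rw [e] at h
  nlinarith

theorem N3_A : ∃ K0 : ℝ, 0 ≤ K0 ∧ ∀ n p : ℕ, p.Prime → 7 ≤ n → n < 128 * p → p < 12 * n → 48 * n < p ^ 2 →
    ∃ μ : ℤ, ((((mN n : ℕ) : ℤ) * μ + ∑ κ ∈ Kset n p, TT (-(eeN p n κ) - μ) : ℤ) : ℝ) ≤ EN n p + K0 := by
  obtain ⟨K1, hK1⟩ := N3_sum_sr2
  refine ⟨12288 * 23 + |K1| / 2 + 6912 ^ 2 + 1000, by positivity, ?_⟩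
  intro n p hp hn hpn hp12 hp2
  have hp0 := hp.pos
  have hsr := sr_le' hp0 hpn
  have hrh := rh_le' hp0 hpn
  have hvv := vv_le' hp0 hpn
  have hp2' : p ≠ 2 := by
    rintro rfl
    omega
  obtain ⟨d, hd⟩ : ∃ d : ℕ → ℤ, d = fun r => (sr n p r : ℤ) - rh n p := ⟨_, rfl⟩
  have hdb : ∀ r, -256 ≤ d r ∧ d r ≤ 6912 := by
    intro r
    have h1 := hsr r
    simp only [hd]
    omega
  have hsym : ∀ r < p, d r = d ((24 * n - r) % p) := by
    intro r hr
    have h1 := P3_ee_sym hp (by omega : 1 ≤ n) hr (by omega)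
    rw [P3_ee_form, P3_ee_form] at h1
    have h2 : (sr n p r : ℤ) = sr n p ((24 * n - r) % p) := by linarith
    simp only [hd]
    rw [h2]
  have hKp := P3_Kset_sum hp hp2' (by omega : p < 24 * n) (fun r => d r ^ 2 + d r) (6912 ^ 2 + 6912) (by norm_num)
    (by
      intro r hr
      rw [← hsym r hr])
    (by
      intro r _
      have h1 := hdb r
      nlinarith [h1.1, h1.2])
  have hKm := P3_Kset_sum hp hp2' (by omega : p < 24 * n) (fun r => d r ^ 2 - d r) (6912 ^ 2 + 6912) (by norm_num)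
    (by
      intro r hr
      rw [← hsym r hr])
    (by
      intro r _
      have h1 := hdb r
      nlinarith [h1.1, h1.2])
  -- the sums over all residues
  have hsum1 : ((∑ r ∈ Finset.range p, d r : ℤ) : ℝ) = 48 * n + 3 - p * (rh n p : ℝ) := by
    have h1 := N3_sum_sr (n := n) hp
    have h1' : (∑ r ∈ Finset.range p, (sr n p r : ℝ)) = 48 * n + 3 := by
      exact_mod_cast h1
    rw [hd]
    push_cast
    rw [Finset.sum_sub_distrib, h1', Finset.sum_const, Finset.card_range, nsmul_eq_mul]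
  have hsum2 : ((∑ r ∈ Finset.range p, d r ^ 2 : ℤ) : ℝ) =
      ((∑ r ∈ Finset.range p, sr n p r ^ 2 : ℕ) : ℝ) - 2 * rh n p * (48 * n + 3) +
        p * (rh n p : ℝ) ^ 2 := by
    have h1 := N3_sum_sr (n := n) hp
    have h1' : (∑ r ∈ Finset.range p, (sr n p r : ℝ)) = 48 * n + 3 := by
      exact_mod_cast h1
    rw [hd]
    push_cast
    have h2 : ∀ r ∈ Finset.range p, ((sr n p r : ℝ) - rh n p) ^ 2 =
        (sr n p r : ℝ) ^ 2 - 2 * rh n p * (sr n p r : ℝ) + (rh n p : ℝ) ^ 2 := by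
      intro r _
      ring
    rw [Finset.sum_congr rfl h2, Finset.sum_add_distrib, Finset.sum_sub_distrib, ← Finset.mul_sum,
      h1', Finset.sum_const, Finset.card_range, nsmul_eq_mul]
  have hKpR : 2 * ((∑ κ ∈ Kset n p, (d κ ^ 2 + d κ) : ℤ) : ℝ) ≤
      ((∑ r ∈ Finset.range p, d r ^ 2 : ℤ) : ℝ) + ((∑ r ∈ Finset.range p, d r : ℤ) : ℝ) + (6912 ^ 2 + 6912) := by
    have e := Finset.sum_add_distrib (s := Finset.range p) (f := fun r => d r ^ 2) (g := fun r => d r)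
    rw [e] at hKp
    exact_mod_cast hKp
  have hKmR : 2 * ((∑ κ ∈ Kset n p, (d κ ^ 2 - d κ) : ℤ) : ℝ) ≤
      ((∑ r ∈ Finset.range p, d r ^ 2 : ℤ) : ℝ) - ((∑ r ∈ Finset.range p, d r : ℤ) : ℝ) + (6912 ^ 2 + 6912) := by
    have e := Finset.sum_sub_distrib (s := Finset.range p) (f := fun r => d r ^ 2) (g := fun r => d r)
    rw [e] at hKm
    exact_mod_cast hKm
  have h2 := hK1 n p hp hn hpn
  have h3 := N3_rho hp hpn
  have hg := gain hp hpn
  have hm : ((mN n : ℕ) : ℝ) = 23 * n - 23 := by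
    unfold mN
    rw [Nat.cast_mul, Nat.cast_sub (by omega)]
    push_cast
    ring
  have hvvR : (vv n p : ℝ) ≤ 12288 := by exact_mod_cast hvv
  have hvv0 : (0 : ℝ) ≤ (vv n p : ℝ) := Nat.cast_nonneg _
  have hrh0 : (0 : ℝ) ≤ rh n p := Nat.cast_nonneg _
  have hrhR : (rh n p : ℝ) ≤ 256 := by exact_mod_cast hrh
  have hK1a := le_abs_self K1
  have hENs : EN n p = 90 * n - 23 * n * (vv n p : ℝ) +
      (∑ j ∈ JC, (tn (18 * n) j p + 2 * tn (17 * n) j p + 3 * tn (16 * n) j p + 2 * tn (15 * n) j p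
      + tn (14 * n) j p - 4 * tn n j p - 2 * tn (2 * n) j p)) - ∑ j ∈ JC, tn (2 * n) j p := by
    unfold EN
    rw [add_sub_assoc, ← Finset.sum_sub_distrib]
    congr 1
    refine Finset.sum_congr rfl fun j _ => ?_
    ring
  rw [hENs]
  rw [hsum1, hsum2] at hKpR hKmR
  generalize ∑ j ∈ JC, (tn (18 * n) j p + 2 * tn (17 * n) j p + 3 * tn (16 * n) j p +
    2 * tn (15 * n) j p + tn (14 * n) j p - 4 * tn n j p - 2 * tn (2 * n) j p) = Sj at h2 ⊢
  generalize ∑ j ∈ JC.filter Odd, tn (4 * n) j p = So at h3 hg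
  generalize ∑ j ∈ JC, tn (2 * n) j p = S2 at hg ⊢
  rcases le_total (n : ℝ) (p * (rh n p : ℝ) / 2) with hc | hc
  · -- lower threshold
    refine ⟨2 * (rh n p : ℤ) - vv n p, ?_⟩
    have hS : (∑ κ ∈ Kset n p, TT (-(eeN p n κ) - (2 * (rh n p : ℤ) - vv n p))) ≤
        ∑ κ ∈ Kset n p, (d κ ^ 2 + d κ) := by
      refine Finset.sum_le_sum fun κ _ => ?_
      have e : -(eeN p n κ) - (2 * (rh n p : ℤ) - vv n p) = 2 * d κ := by
        rw [P3_ee_form, hd]
        ring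
      rw [e]
      exact TT_even _
    have hSR : ((∑ κ ∈ Kset n p, TT (-(eeN p n κ) - (2 * (rh n p : ℤ) - vv n p)) : ℤ) : ℝ) ≤
        ((∑ κ ∈ Kset n p, (d κ ^ 2 + d κ) : ℤ) : ℝ) := by exact_mod_cast hS
    rw [Int.cast_add, Int.cast_mul, Int.cast_natCast, hm]
    have e1 : (((2 * (rh n p : ℤ) - vv n p : ℤ)) : ℝ) = 2 * (rh n p : ℝ) - vv n p := by
      push_cast
      ring
    rw [e1]
    generalize ((∑ κ ∈ Kset n p, TT (-(eeN p n κ) - (2 * (rh n p : ℤ) - vv n p)) : ℤ) : ℝ) = t1 at hSR ⊢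
    generalize ((∑ κ ∈ Kset n p, (d κ ^ 2 + d κ) : ℤ) : ℝ) = t2 at hSR hKpR
    generalize ((∑ r ∈ Finset.range p, sr n p r ^ 2 : ℕ) : ℝ) = t3 at h2 hKpR
    generalize (rh n p : ℝ) = ρ at *
    generalize (vv n p : ℝ) = v at *
    have hG : (n : ℝ) - 1 / 2 * So + S2 ≤ -(n - p * ρ / 2) := by
      rcases hg with hg | hg <;> linarith
    nlinarith
  · -- upper threshold
    refine ⟨2 + 2 * (rh n p : ℤ) - vv n p, ?_⟩
    have hS : (∑ κ ∈ Kset n p, TT (-(eeN p n κ) - (2 + 2 * (rh n p : ℤ) - vv n p))) ≤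
        ∑ κ ∈ Kset n p, (d κ ^ 2 - d κ) := by
      refine Finset.sum_le_sum fun κ _ => ?_
      have e : -(eeN p n κ) - (2 + 2 * (rh n p : ℤ) - vv n p) = 2 * d κ - 2 := by
        rw [P3_ee_form, hd]
        ring
      rw [e]
      exact TT_even' _
    have hSR : ((∑ κ ∈ Kset n p, TT (-(eeN p n κ) - (2 + 2 * (rh n p : ℤ) - vv n p)) : ℤ) : ℝ) ≤
        ((∑ κ ∈ Kset n p, (d κ ^ 2 - d κ) : ℤ) : ℝ) := by exact_mod_cast hS
    rw [Int.cast_add, Int.cast_mul, Int.cast_natCast, hm]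
    have e1 : (((2 + 2 * (rh n p : ℤ) - vv n p : ℤ)) : ℝ) = 2 + 2 * (rh n p : ℝ) - vv n p := by
      push_cast
      ring
    rw [e1]
    generalize ((∑ κ ∈ Kset n p, TT (-(eeN p n κ) - (2 + 2 * (rh n p : ℤ) - vv n p)) : ℤ) : ℝ) = t1 at hSR ⊢
    generalize ((∑ κ ∈ Kset n p, (d κ ^ 2 - d κ) : ℤ) : ℝ) = t2 at hSR hKmR
    generalize ((∑ r ∈ Finset.range p, sr n p r ^ 2 : ℕ) : ℝ) = t3 at h2 hKmR
    generalize (rh n p : ℝ) = ρ at *
    generalize (vv n p : ℝ) = v at *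
    have hG : (n : ℝ) - 1 / 2 * So + S2 ≤ n - p * ρ / 2 := by
      rcases hg with hg | hg <;> linarith
    nlinarith

end

end Pool.Agent.J6H77.Z5
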