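import Pool.Agent.J6H77.Z5.Defs

/-!
# The numerical value of the three limits, by kernel evaluation (in eight parts)
-/

open Pool.Agent.H336R2.Z5

namespace Pool.Agent.J6H77.Z5

lemma It_eq (α j : ℕ) (hi : ℚ) (hj : 1 ≤ j) (h1 : (α : ℚ) ≤ hi * j) :
    It α j (1 / 128) hi = ((128 * α - j : ℕ) : ℚ) ^ 2 / (32768 * j) := by
  have hj0 : (0 : ℚ) < j := by exact_mod_cast hj
  have hm : min hi ((α : ℚ) / j) = (α : ℚ) / j := min_eq_right (by rw [div_le_iff₀ hj0]; exact h1)
  unfold It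
  rw [hm]
  by_cases h : j ≤ 128 * α
  · have h2 : (1 / 128 : ℚ) ≤ (α : ℚ) / j := by
      rw [le_div_iff₀ hj0]
      have : (j : ℚ) ≤ 128 * α := by exact_mod_cast h
      linarith
    rw [max_eq_right h2, Nat.cast_sub h]
    push_cast
    field_simp
    ring
  · have h2 : (α : ℚ) / j ≤ 1 / 128 := by
      rw [div_le_iff₀ hj0]
      have : (128 : ℚ) * α ≤ j := by exact_mod_cast (by omega : 128 * α ≤ j)
      linarith
    rw [max_eq_left h2, Nat.sub_eq_zero_of_le (by omega)]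
    simp

lemma If_eq (α j : ℕ) (hj : 1 ≤ j) (h1 : (α : ℚ) ≤ 12 * j) :
    max (1 / 128) (min 12 ((α : ℚ) / j)) - 1 / 128 = ((128 * α - j : ℕ) : ℚ) / (128 * j) := by
  have hj0 : (0 : ℚ) < j := by exact_mod_cast hj
  have hm : min 12 ((α : ℚ) / j) = (α : ℚ) / j := min_eq_right (by rw [div_le_iff₀ hj0]; exact h1)
  rw [hm]
  by_cases h : j ≤ 128 * α
  · have h2 : (1 / 128 : ℚ) ≤ (α : ℚ) / j := by
      rw [le_div_iff₀ hj0]
      have : (j : ℚ) ≤ 128 * α := by exact_mod_cast h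
      linarith
    rw [max_eq_right h2, Nat.cast_sub h]
    push_cast
    field_simp
  · have h2 : (α : ℚ) / j ≤ 1 / 128 := by
      rw [div_le_iff₀ hj0]
      have : (128 : ℚ) * α ≤ j := by exact_mod_cast (by omega : 128 * α ≤ j)
      linarith
    rw [max_eq_left h2, Nat.sub_eq_zero_of_le (by omega)]
    simp

/-- the `j`-th term of `LN + LV` -/
def gq (j : ℕ) : ℚ :=
  -46 * ((max (1 / 128) (min 12 (((18 : ℕ) : ℚ) / j)) - 1 / 128) + (max (1 / 128) (min 12 (((16 : ℕ) : ℚ) / j)) - 1 / 128) +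
    (max (1 / 128) (min 12 (((14 : ℕ) : ℚ) / j)) - 1 / 128)) +
  (It 18 j (1 / 128) 12 + 2 * It 17 j (1 / 128) 12 + 3 * It 16 j (1 / 128) 12 + 2 * It 15 j (1 / 128) 12
    + It 14 j (1 / 128) 12 - 4 * It 1 j (1 / 128) 12 - 3 * It 2 j (1 / 128) 12) + It 46 j (1 / 128) 46

lemma LN_LV : LN + LV = 90 * (12 - 1 / 128) + ∑ j ∈ JC, gq j := by
  unfold LN LV IflC gq
  simp only [Finset.sum_add_distrib, Finset.sum_sub_distrib, ← Finset.mul_sum]
  ring

/-- numerator of `gq j` -/
def NN (j : ℕ) : ℤ :=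
  -11776 * ((128 * 18 - j : ℕ) + (128 * 16 - j : ℕ) + (128 * 14 - j : ℕ)) +
  ((128 * 18 - j : ℕ) ^ 2 + 2 * (128 * 17 - j : ℕ) ^ 2 + 3 * (128 * 16 - j : ℕ) ^ 2 + 2 * (128 * 15 - j : ℕ) ^ 2 +
    (128 * 14 - j : ℕ) ^ 2 - 4 * (128 * 1 - j : ℕ) ^ 2 - 3 * (128 * 2 - j : ℕ) ^ 2) + (128 * 46 - j : ℕ) ^ 2

lemma gq_eq (j : ℕ) (hj : 2 ≤ j) : gq j = (NN j : ℚ) / (32768 * j) := by
  have hj2 : (2 : ℚ) ≤ j := by exact_mod_cast hj
  have hj0 : (0 : ℚ) < j := by linarith
  unfold gq NN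
  rw [If_eq 18 j (by omega) (by push_cast; linarith), If_eq 16 j (by omega) (by push_cast; linarith),
    If_eq 14 j (by omega) (by push_cast; linarith), It_eq 18 j 12 (by omega) (by push_cast; linarith),
    It_eq 17 j 12 (by omega) (by push_cast; linarith), It_eq 16 j 12 (by omega) (by push_cast; linarith),
    It_eq 15 j 12 (by omega) (by push_cast; linarith), It_eq 14 j 12 (by omega) (by push_cast; linarith),
    It_eq 1 j 12 (by omega) (by push_cast; linarith), It_eq 2 j 12 (by omega) (by push_cast; linarith),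
    It_eq 46 j 46 (by omega) (by push_cast; linarith)]
  push_cast
  field_simp
  ring

/-- the terms rounded up -/
def gz (j : ℕ) : ℤ := -((-(NN j) * 1000000000) / (32768 * j))

lemma gq_le1 (j : ℕ) (hj : 2 ≤ j) : gq j ≤ (gz j : ℚ) / 1000000000 := by
  have hj0 : (0 : ℚ) < j := by exact_mod_cast (by omega : 0 < j)
  have hb : (0 : ℤ) < 32768 * (j : ℤ) := by
    have : (0 : ℤ) < j := by exact_mod_cast (by omega : 0 < j)
    linarith
  have h := Int.ediv_mul_le (-(NN j) * 1000000000) hb.ne'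
  have h2 : (NN j) * 1000000000 ≤ gz j * (32768 * j) := by
    unfold gz
    linarith
  have h3 : ((NN j : ℤ) : ℚ) * 1000000000 ≤ (gz j : ℚ) * (32768 * j) := by exact_mod_cast h2
  rw [gq_eq j hj, div_le_div_iff₀ (by positivity) (by norm_num)]
  linarith

lemma gq_le (s : Finset ℕ) (hs : ∀ j ∈ s, 2 ≤ j) : ∑ j ∈ s, gq j ≤ ((∑ j ∈ s, gz j : ℤ) : ℚ) / 1000000000 := by
  rw [Int.cast_sum, Finset.sum_div]
  exact Finset.sum_le_sum fun j hj => gq_le1 j (hs j hj)

lemma part_one : gq 1 ≤ 2960449791 / 6250000 := by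
  decide +kernel

lemma part0 : ∑ j ∈ Finset.Ico 2 185, gz j ≤ -58445476185 := by
  decide +kernel

lemma part1 : ∑ j ∈ Finset.Ico 185 369, gz j ≤ -53744917084 := by
  decide +kernel

lemma part2 : ∑ j ∈ Finset.Ico 369 553, gz j ≤ -45651745208 := by
  decide +kernel

lemma part3 : ∑ j ∈ Finset.Ico 553 737, gz j ≤ -36260168422 := by
  decide +kernel

lemma part4 : ∑ j ∈ Finset.Ico 737 921, gz j ≤ -26443721213 := by
  decide +kernel

lemma part5 : ∑ j ∈ Finset.Ico 921 1105, gz j ≤ -16437903800 := by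
  decide +kernel

lemma part6 : ∑ j ∈ Finset.Ico 1105 1289, gz j ≤ -6331032628 := by
  decide +kernel

lemma part7 : ∑ j ∈ Finset.Ico 1289 1473, gz j ≤ 3836173676 := by
  decide +kernel

lemma part8 : ∑ j ∈ Finset.Ico 1473 1657, gz j ≤ 14042304306 := by
  decide +kernel

lemma part9 : ∑ j ∈ Finset.Ico 1657 1841, gz j ≤ 24042711999 := by
  decide +kernel

lemma part10 : ∑ j ∈ Finset.Ico 1841 2025, gz j ≤ 29689501238 := by
  decide +kernel

lemma part11 : ∑ j ∈ Finset.Ico 2025 2209, gz j ≤ 31980377532 := by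
  decide +kernel

lemma part12 : ∑ j ∈ Finset.Ico 2209 2393, gz j ≤ 30732024356 := by
  decide +kernel

lemma part13 : ∑ j ∈ Finset.Ico 2393 2577, gz j ≤ 26216489851 := by
  decide +kernel

lemma part14 : ∑ j ∈ Finset.Ico 2577 2761, gz j ≤ 21840022289 := by
  decide +kernel

lemma part15 : ∑ j ∈ Finset.Ico 2761 2945, gz j ≤ 18162233752 := by
  decide +kernel

lemma part16 : ∑ j ∈ Finset.Ico 2945 3129, gz j ≤ 15055940465 := by
  decide +kernel

lemma part17 : ∑ j ∈ Finset.Ico 3129 3313, gz j ≤ 12423069786 := by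
  decide +kernel

lemma part18 : ∑ j ∈ Finset.Ico 3313 3497, gz j ≤ 10186780024 := by
  decide +kernel

lemma part19 : ∑ j ∈ Finset.Ico 3497 3681, gz j ≤ 8286009026 := by
  decide +kernel

lemma part20 : ∑ j ∈ Finset.Ico 3681 3865, gz j ≤ 6671620833 := by
  decide +kernel

lemma part21 : ∑ j ∈ Finset.Ico 3865 4049, gz j ≤ 5303629016 := by
  decide +kernel

lemma part22 : ∑ j ∈ Finset.Ico 4049 4233, gz j ≤ 4149161463 := by
  decide +kernel

lemma part23 : ∑ j ∈ Finset.Ico 4233 4417, gz j ≤ 3180945273 := by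
  decide +kernel

lemma part24 : ∑ j ∈ Finset.Ico 4417 4601, gz j ≤ 2376163157 := by
  decide +kernel

lemma part25 : ∑ j ∈ Finset.Ico 4601 4785, gz j ≤ 1715579148 := by
  decide +kernel

lemma part26 : ∑ j ∈ Finset.Ico 4785 4969, gz j ≤ 1182862370 := by
  decide +kernel

lemma part27 : ∑ j ∈ Finset.Ico 4969 5153, gz j ≤ 764058515 := by
  decide +kernel

lemma part28 : ∑ j ∈ Finset.Ico 5153 5337, gz j ≤ 447172724 := by
  decide +kernel

lemma part29 : ∑ j ∈ Finset.Ico 5337 5521, gz j ≤ 221837178 := by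
  decide +kernel

lemma part30 : ∑ j ∈ Finset.Ico 5521 5705, gz j ≤ 79044358 := by
  decide +kernel

lemma part31 : ∑ j ∈ Finset.Ico 5705 5889, gz j ≤ 10930943 := by
  decide +kernel

lemma LB_le : LB ≤ 745 / 3 := by
  decide +kernel

theorem numeric : LN + LB + LV ≤ 18305839 / 10000 := by
  have h : (JC : Finset ℕ) = Finset.Ico 1 5889 := by
    ext j
    simp only [Finset.mem_Icc, Finset.mem_Ico]
    omega
  have s1 := Finset.sum_Ico_consecutive gz (show 2 ≤ 185 by norm_num) (show 185 ≤ 369 by norm_num)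
  have s2 := Finset.sum_Ico_consecutive gz (show 2 ≤ 369 by norm_num) (show 369 ≤ 553 by norm_num)
  have s3 := Finset.sum_Ico_consecutive gz (show 2 ≤ 553 by norm_num) (show 553 ≤ 737 by norm_num)
  have s4 := Finset.sum_Ico_consecutive gz (show 2 ≤ 737 by norm_num) (show 737 ≤ 921 by norm_num)
  have s5 := Finset.sum_Ico_consecutive gz (show 2 ≤ 921 by norm_num) (show 921 ≤ 1105 by norm_num)
  have s6 := Finset.sum_Ico_consecutive gz (show 2 ≤ 1105 by norm_num) (show 1105 ≤ 1289 by norm_num)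
  have s7 := Finset.sum_Ico_consecutive gz (show 2 ≤ 1289 by norm_num) (show 1289 ≤ 1473 by norm_num)
  have s8 := Finset.sum_Ico_consecutive gz (show 2 ≤ 1473 by norm_num) (show 1473 ≤ 1657 by norm_num)
  have s9 := Finset.sum_Ico_consecutive gz (show 2 ≤ 1657 by norm_num) (show 1657 ≤ 1841 by norm_num)
  have s10 := Finset.sum_Ico_consecutive gz (show 2 ≤ 1841 by norm_num) (show 1841 ≤ 2025 by norm_num)
  have s11 := Finset.sum_Ico_consecutive gz (show 2 ≤ 2025 by norm_num) (show 2025 ≤ 2209 by norm_num)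
  have s12 := Finset.sum_Ico_consecutive gz (show 2 ≤ 2209 by norm_num) (show 2209 ≤ 2393 by norm_num)
  have s13 := Finset.sum_Ico_consecutive gz (show 2 ≤ 2393 by norm_num) (show 2393 ≤ 2577 by norm_num)
  have s14 := Finset.sum_Ico_consecutive gz (show 2 ≤ 2577 by norm_num) (show 2577 ≤ 2761 by norm_num)
  have s15 := Finset.sum_Ico_consecutive gz (show 2 ≤ 2761 by norm_num) (show 2761 ≤ 2945 by norm_num)
  have s16 := Finset.sum_Ico_consecutive gz (show 2 ≤ 2945 by norm_num) (show 2945 ≤ 3129 by norm_num)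
  have s17 := Finset.sum_Ico_consecutive gz (show 2 ≤ 3129 by norm_num) (show 3129 ≤ 3313 by norm_num)
  have s18 := Finset.sum_Ico_consecutive gz (show 2 ≤ 3313 by norm_num) (show 3313 ≤ 3497 by norm_num)
  have s19 := Finset.sum_Ico_consecutive gz (show 2 ≤ 3497 by norm_num) (show 3497 ≤ 3681 by norm_num)
  have s20 := Finset.sum_Ico_consecutive gz (show 2 ≤ 3681 by norm_num) (show 3681 ≤ 3865 by norm_num)
  have s21 := Finset.sum_Ico_consecutive gz (show 2 ≤ 3865 by norm_num) (show 3865 ≤ 4049 by norm_num)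
  have s22 := Finset.sum_Ico_consecutive gz (show 2 ≤ 4049 by norm_num) (show 4049 ≤ 4233 by norm_num)
  have s23 := Finset.sum_Ico_consecutive gz (show 2 ≤ 4233 by norm_num) (show 4233 ≤ 4417 by norm_num)
  have s24 := Finset.sum_Ico_consecutive gz (show 2 ≤ 4417 by norm_num) (show 4417 ≤ 4601 by norm_num)
  have s25 := Finset.sum_Ico_consecutive gz (show 2 ≤ 4601 by norm_num) (show 4601 ≤ 4785 by norm_num)
  have s26 := Finset.sum_Ico_consecutive gz (show 2 ≤ 4785 by norm_num) (show 4785 ≤ 4969 by norm_num)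
  have s27 := Finset.sum_Ico_consecutive gz (show 2 ≤ 4969 by norm_num) (show 4969 ≤ 5153 by norm_num)
  have s28 := Finset.sum_Ico_consecutive gz (show 2 ≤ 5153 by norm_num) (show 5153 ≤ 5337 by norm_num)
  have s29 := Finset.sum_Ico_consecutive gz (show 2 ≤ 5337 by norm_num) (show 5337 ≤ 5521 by norm_num)
  have s30 := Finset.sum_Ico_consecutive gz (show 2 ≤ 5521 by norm_num) (show 5521 ≤ 5705 by norm_num)
  have s31 := Finset.sum_Ico_consecutive gz (show 2 ≤ 5705 by norm_num) (show 5705 ≤ 5889 by norm_num)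
  have hL := LN_LV
  rw [h, Finset.sum_eq_sum_Ico_succ_bot (by norm_num)] at hL
  have hB := LB_le
  have h1 := part_one
  have hz : ∑ j ∈ Finset.Ico 2 5889, gz j ≤ 29281678738 := by
    linarith [part0, part1, part2, part3, part4, part5, part6, part7, part8, part9, part10, part11, part12, part13, part14, part15, part16, part17, part18, part19, part20, part21, part22, part23, part24, part25, part26, part27, part28, part29, part30, part31]
  have hz' : ((∑ j ∈ Finset.Ico 2 5889, gz j : ℤ) : ℚ) ≤ 29281678738 := by exact_mod_cast hz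
  have hq := gq_le (Finset.Ico 2 5889) (fun j hj => (Finset.mem_Ico.1 hj).1)
  have hq2 : ((∑ j ∈ Finset.Ico 2 5889, gz j : ℤ) : ℚ) / 1000000000 ≤ 29281678738 / 1000000000 :=
    div_le_div_of_nonneg_right hz' (by norm_num)
  have e : (1 : ℕ) + 1 = 2 := rfl
  rw [e] at hL
  linarith

end Pool.Agent.J6H77.Z5
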