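import Pool.Agent.J6H77.Z5.Defs
import Pool.Agent.H337R2.Asym

open Polynomial Pool.Agent.H337R2 Pool.Agent.H336R2.Z5 Filter Topology

namespace Pool.Agent.J6H77.Z5

noncomputable section

/-- small primes: trivial exponents -/
theorem N5_small (B : ℝ) (hB : 0 ≤ B) : ∀ ε : ℝ, 0 < ε → ∀ᶠ n : ℕ in atTop,
    23 * (n : ℝ) * (∑ p ∈ (Finset.range (n + 1)).filter (fun p : ℕ => p.Prime ∧ p ^ 2 ≤ 48 * n),
        B * Real.log (48 * n + 1) +
      ∑ p ∈ (Finset.range (n + 1)).filter (fun p : ℕ => p.Prime ∧ 128 * p ≤ n), 6 * Real.log p) ≤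
    (69 / 64 + ε) * (n : ℝ) ^ 2 := by
  intro ε hε
  filter_upwards [rpow_lim 49 (by norm_num) (ε / (368 * (B + 1))) (by positivity),
    theta_lim (1 / 128) (by norm_num) (ε / 276) (by positivity), eventually_ge_atTop 1] with n h1 h2 hn
  have hn0 : (1 : ℝ) ≤ n := by exact_mod_cast hn
  have hM1 : (1 : ℝ) ≤ 48 * (n : ℝ) + 1 := by linarith
  have hlog0 : 0 ≤ Real.log (48 * (n : ℝ) + 1) := Real.log_nonneg hM1
  -- second sum
  have hS2 : ∑ p ∈ (Finset.range (n + 1)).filter (fun p : ℕ => p.Prime ∧ 128 * p ≤ n), 6 * Real.log (p : ℝ) ≤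
      6 * Chebyshev.theta (1 / 128 * n) := by
    rw [← Finset.mul_sum]
    apply mul_le_mul_of_nonneg_left _ (by norm_num)
    unfold Chebyshev.theta
    apply Finset.sum_le_sum_of_subset_of_nonneg
    · intro p hp
      rw [Finset.mem_filter] at hp
      rw [Finset.mem_filter, Finset.mem_Ioc]
      refine ⟨⟨hp.2.1.pos, ?_⟩, hp.2.1⟩
      rw [Nat.le_floor_iff (by positivity)]
      have : ((128 * p : ℕ) : ℝ) ≤ (n : ℝ) := by exact_mod_cast hp.2.2
      push_cast at this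
      linarith
    · intro p hp _
      rw [Finset.mem_filter] at hp
      exact Real.log_nonneg (by exact_mod_cast hp.2.one_lt.le)
  -- first sum
  have hcard : (((Finset.range (n + 1)).filter (fun p : ℕ => p.Prime ∧ p ^ 2 ≤ 48 * n)).card : ℝ) ≤
      (Nat.sqrt (48 * n) : ℝ) + 1 := by
    have hsub : (Finset.range (n + 1)).filter (fun p : ℕ => p.Prime ∧ p ^ 2 ≤ 48 * n) ⊆
        Finset.range (Nat.sqrt (48 * n) + 1) := by
      intro p hp
      rw [Finset.mem_filter] at hp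
      rw [Finset.mem_range]
      have : p ≤ Nat.sqrt (48 * n) := Nat.le_sqrt'.2 hp.2.2
      omega
    have := Finset.card_le_card hsub
    rw [Finset.card_range] at this
    exact_mod_cast this
  have hS1 : ∑ p ∈ (Finset.range (n + 1)).filter (fun p : ℕ => p.Prime ∧ p ^ 2 ≤ 48 * n),
        B * Real.log (48 * (n : ℝ) + 1) ≤ ε / 46 * n := by
    rw [Finset.sum_const, nsmul_eq_mul]
    have h3 : Real.log (48 * (n : ℝ) + 1) ≤ (48 * (n : ℝ) + 1) ^ (1 / 4 : ℝ) / (1 / 4) :=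
      Real.log_le_rpow_div (by positivity) (by norm_num)
    have h4 : ((Nat.sqrt (48 * n) : ℕ) : ℝ) + 1 ≤ 2 * (48 * (n : ℝ) + 1) ^ (1 / 2 : ℝ) := by
      have h5 : ((Nat.sqrt (48 * n) : ℕ) : ℝ) ≤ Real.sqrt (48 * (n : ℝ) + 1) := by
        apply Real.le_sqrt_of_sq_le
        have := Nat.sqrt_le' (48 * n)
        exact_mod_cast (by omega : Nat.sqrt (48 * n) ^ 2 ≤ 48 * n + 1)
      rw [← Real.sqrt_eq_rpow]
      have h6 : 1 ≤ Real.sqrt (48 * (n : ℝ) + 1) := by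
        rw [Real.one_le_sqrt]; exact hM1
      linarith
    have h5 : (48 * (n : ℝ) + 1) ^ (3 / 4 : ℝ) ≤ ε / (368 * (B + 1)) * n := by
      refine le_trans ?_ h1
      apply Real.rpow_le_rpow (by positivity) (by linarith) (by norm_num)
    have h6 : (48 * (n : ℝ) + 1) ^ (1 / 2 : ℝ) * (48 * (n : ℝ) + 1) ^ (1 / 4 : ℝ) = (48 * (n : ℝ) + 1) ^ (3 / 4 : ℝ) := by
      rw [← Real.rpow_add (by positivity)]; norm_num
    have h7 : 0 ≤ (48 * (n : ℝ) + 1) ^ (1 / 2 : ℝ) := by positivity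
    have h8 : 0 ≤ (48 * (n : ℝ) + 1) ^ (1 / 4 : ℝ) := by positivity
    have hB1 : (8 * B) * (ε / (368 * (B + 1)) * n) ≤ ε / 46 * n := by
      have e1 : (8 * B) * (ε / (368 * (B + 1)) * n) = (ε / 46 * n) * (B / (B + 1)) := by
        field_simp
        ring
      rw [e1]
      have h9 : B / (B + 1) ≤ 1 := by
        rw [div_le_one (by positivity)]; linarith
      have h10 : 0 ≤ ε / 46 * (n : ℝ) := by positivity
      nlinarith
    calc _ ≤ (2 * (48 * (n : ℝ) + 1) ^ (1 / 2 : ℝ)) * (B * ((48 * (n : ℝ) + 1) ^ (1 / 4 : ℝ) / (1 / 4))) := by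
          apply mul_le_mul (hcard.trans h4) _ (by positivity) (by positivity)
          exact mul_le_mul_of_nonneg_left h3 hB
      _ = 8 * B * ((48 * (n : ℝ) + 1) ^ (1 / 2 : ℝ) * (48 * (n : ℝ) + 1) ^ (1 / 4 : ℝ)) := by ring
      _ = 8 * B * (48 * (n : ℝ) + 1) ^ (3 / 4 : ℝ) := by rw [h6]
      _ ≤ 8 * B * (ε / (368 * (B + 1)) * n) := mul_le_mul_of_nonneg_left h5 (by positivity)
      _ ≤ ε / 46 * n := hB1
  rw [abs_le] at h2
  have hT : 6 * Chebyshev.theta (1 / 128 * n) ≤ 6 * ((1 / 128 + ε / 276) * n) := by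
    have := h2.2
    linarith
  have hsum := add_le_add hS1 (hS2.trans hT)
  have hn6 : 0 ≤ 23 * (n : ℝ) := by positivity
  calc _ ≤ 23 * (n : ℝ) * (ε / 46 * n + 6 * ((1 / 128 + ε / 276) * n)) := mul_le_mul_of_nonneg_left hsum hn6
    _ = (69 / 64 + ε) * (n : ℝ) ^ 2 := by ring

end

end Pool.Agent.J6H77.Z5
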