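import Pool.Agent.J6H77.Z5.PU
import Pool.Agent.J6H77.Z5.Lims
import Pool.Agent.J6H77.Z5.Small
import Pool.Agent.J6H77.Z5.Fact
import Pool.Agent.J6H77.Z5.Numeric
import Pool.Agent.Y801.Z5S.PS

/-!
# The sum of the local bounds
-/

open Polynomial Pool.Agent.H337R2 Pool.Agent.H336R2.Z5 Pool.Agent.H336R2.Z5.P49 Pool.Agent.Y801.Z5S Filter Topology

namespace Pool.Agent.J6H77.Z5

noncomputable section

lemma BN_pos (K0 : ℝ) (n p : ℕ) (hp : p.Prime) : 0 < BN K0 n p := by
  unfold BN
  have hp0 : (0 : ℝ) < p := by exact_mod_cast hp.pos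
  split_ifs
  · positivity
  · positivity
  · exact one_pos
  · exact Bf_pos n p hp

lemma EN_split (n : ℕ) (hn : 7 ≤ n) (K0 : ℝ) (hK0 : 0 ≤ K0) :
    ∑ p ∈ (((Finset.range (34 * n)).filter Nat.Prime).filter (fun p => ¬ 128 * p ≤ n)),
      ((if p < 12 * n then EN n p else EB n p) + K0) * Real.log p ≤
      ∑ p ∈ PS (1 / 128) 12 n, EN n p * Real.log p + ∑ p ∈ PS 12 34 n, EB n p * Real.log p +
      K0 * (Real.log 4 * (34 * n)) := by
  classical
  have hn0 : (0 : ℝ) < n := by exact_mod_cast (by omega : 0 < n)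
  simp only [add_mul, Finset.sum_add_distrib]
  apply add_le_add
  · apply le_of_eq
    set T := ((Finset.range (34 * n)).filter Nat.Prime).filter (fun p => ¬ 128 * p ≤ n) with hT
    have e1 : PS (1 / 128) 12 n = T.filter (fun p => p < 12 * n) := by
      ext p
      unfold PS
      rw [hT]
      simp only [Finset.mem_filter, Finset.mem_range]
      constructor
      · rintro ⟨h1, h2, h3, h4⟩
        have h5 : n < 128 * p := by
          have : (n : ℝ) < 128 * p := by linarith
          exact_mod_cast this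
        have h6 : p < 12 * n := by exact_mod_cast h4
        exact ⟨⟨⟨by omega, h2⟩, by omega⟩, h6⟩
      · rintro ⟨⟨⟨h1, h2⟩, h3⟩, h4⟩
        refine ⟨by omega, h2, ?_, by exact_mod_cast h4⟩
        have : (n : ℝ) < 128 * p := by exact_mod_cast (by omega : n < 128 * p)
        linarith
    have e2 : PS 12 34 n = T.filter (fun p => ¬ p < 12 * n) := by
      ext p
      unfold PS
      rw [hT]
      simp only [Finset.mem_filter, Finset.mem_range]
      constructor
      · rintro ⟨h1, h2, h3, h4⟩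
        have h5 : 12 * n < p := by exact_mod_cast h3
        have h6 : p < 34 * n := by exact_mod_cast h4
        exact ⟨⟨⟨by omega, h2⟩, by omega⟩, by omega⟩
      · rintro ⟨⟨⟨h1, h2⟩, h3⟩, h4⟩
        refine ⟨by omega, h2, ?_, by exact_mod_cast h1⟩
        have h6 : 12 * n ≠ p := by
          rintro rfl
          exact Nat.not_prime_mul (by norm_num) (by omega) h2
        exact_mod_cast (by omega : 12 * n < p)
    rw [e1, e2, ← Finset.sum_filter_add_sum_filter_not T (fun p => p < 12 * n)]
    congr 1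
    · apply Finset.sum_congr rfl
      intro p hp
      rw [Finset.mem_filter] at hp
      rw [if_pos hp.2]
    · apply Finset.sum_congr rfl
      intro p hp
      rw [Finset.mem_filter] at hp
      rw [if_neg hp.2]
  · rw [← Finset.mul_sum]
    apply mul_le_mul_of_nonneg_left _ hK0
    refine le_trans ?_ (Chebyshev.theta_le_log4_mul_x (x := 34 * n) (by positivity))
    unfold Chebyshev.theta
    apply Finset.sum_le_sum_of_subset_of_nonneg
    · intro p hp
      rw [Finset.mem_filter, Finset.mem_filter, Finset.mem_range] at hp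
      rw [Finset.mem_filter, Finset.mem_Ioc]
      refine ⟨⟨hp.1.2.pos, ?_⟩, hp.1.2⟩
      rw [Nat.le_floor_iff (by positivity)]
      have : ((p : ℕ) : ℝ) ≤ ((34 * n : ℕ) : ℝ) := by exact_mod_cast hp.1.1.le
      push_cast at this
      exact this
    · intro p hp _
      rw [Finset.mem_filter] at hp
      exact Real.log_nonneg (by exact_mod_cast hp.2.one_lt.le)

/-- the sum over all primes up to `48 n` -/
theorem PN_sum (K0 : ℝ) (hK0 : 0 ≤ K0) :
    ∀ ε : ℝ, 0 < ε → ∀ᶠ n : ℕ in atTop,
    ∑ p ∈ (Finset.range (48 * n + 1)).filter Nat.Prime, Real.log (BN K0 n p) ≤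
      -(1058 * (n : ℝ) ^ 2 * Real.log n) - (63204 / 100 - ε) * (n : ℝ) ^ 2 := by
  intro ε hε
  have hnumr : (LN : ℝ) + LB + LV ≤ 18305839 / 10000 := by
    have h := (Rat.cast_le (K := ℝ)).2 numeric
    push_cast at h
    exact h
  have hε' : 0 < ε / 10 := by positivity
  have ev9 : ∀ᶠ n : ℕ in atTop, K0 * (Real.log 4 * 34) ≤ ε / 10 * n := by
    have := (tendsto_natCast_atTop_atTop (R := ℝ)).const_mul_atTop hε'
    exact this.eventually_ge_atTop _
  filter_upwards [ev_of_tendsto N5_A (ε / 10) hε', ev_of_tendsto P5_B (ε / 10) hε', ev_of_tendsto N5_U (ε / 10) hε',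
    N5_small 60 (by norm_num) (ε / 10) hε', N5_fact, P5_superfac (ε / 10) hε', ev9, eventually_ge_atTop 1000000] with
    n g2 g3 g5 g6 g7 g8 g9 hn
  have hn7 : 7 ≤ n := by omega
  have hn0 : (0 : ℝ) < n := by exact_mod_cast (by omega : 0 < n)
  set S := (Finset.range (48 * n + 1)).filter Nat.Prime with hS
  rw [← Finset.sum_filter_add_sum_filter_not S (fun p => 128 * p ≤ n)]
  -- small primes
  have hsmall : ∑ p ∈ S.filter (fun p => 128 * p ≤ n), Real.log (BN K0 n p) ≤
      23 * (n : ℝ) * (∑ p ∈ (Finset.range (n + 1)).filter (fun p : ℕ => p.Prime ∧ p ^ 2 ≤ 48 * n),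
        60 * Real.log (48 * n + 1) +
      ∑ p ∈ (Finset.range (n + 1)).filter (fun p : ℕ => p.Prime ∧ 128 * p ≤ n), 6 * Real.log p) +
      ∑ p ∈ (Finset.range (n + 1)).filter (fun p : ℕ => p.Prime ∧ 128 * p ≤ n), ∑ i ∈ Finset.range (mN n),
      Real.log ((padicNorm p (((2 * i - 1).factorial : ℕ) : ℚ) ^ 2 : ℚ) : ℝ) := by
    have e1 : S.filter (fun p => 128 * p ≤ n) = (Finset.range (n + 1)).filter (fun p : ℕ => p.Prime ∧ 128 * p ≤ n) := by
      ext p
      rw [hS]
      simp only [Finset.mem_filter, Finset.mem_range]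
      constructor
      · rintro ⟨⟨h1, h2⟩, h3⟩; exact ⟨by omega, h2, h3⟩
      · rintro ⟨h1, h2, h3⟩; exact ⟨⟨by omega, h2⟩, h3⟩
    rw [e1]
    calc _ ≤ ∑ p ∈ (Finset.range (n + 1)).filter (fun p : ℕ => p.Prime ∧ 128 * p ≤ n),
          (23 * (n : ℝ) * ((if p ^ 2 ≤ 48 * n then 60 * Real.log (48 * n + 1) else 0) + 6 * Real.log p) +
          ∑ i ∈ Finset.range (mN n), Real.log ((padicNorm p (((2 * i - 1).factorial : ℕ) : ℚ) ^ 2 : ℚ) : ℝ)) := by
          apply Finset.sum_le_sum
          intro p hp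
          rw [Finset.mem_filter] at hp
          have e2 : BN K0 n p = Bf n p := by
            unfold BN
            rw [if_neg (by omega)]
          rw [e2]
          exact log_Bf_small n p hp.2.1
      _ ≤ _ := by
          rw [Finset.sum_add_distrib, ← Finset.mul_sum, Finset.sum_add_distrib]
          apply add_le_add_left
          apply mul_le_mul_of_nonneg_left _ (by positivity)
          apply add_le_add_left
          rw [← Finset.sum_filter]
          apply Finset.sum_le_sum_of_subset_of_nonneg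
          · intro p hp
            simp only [Finset.mem_filter, Finset.mem_range] at hp ⊢
            exact ⟨hp.1.1, hp.1.2.1, hp.2⟩
          · intro p _ _
            have : 0 ≤ Real.log (48 * (n : ℝ) + 1) := Real.log_nonneg (by linarith)
            positivity
  -- large primes
  have hlarge : ∑ p ∈ S.filter (fun p => ¬ 128 * p ≤ n), Real.log (BN K0 n p) ≤
      ∑ p ∈ PS (1 / 128) 12 n, EN n p * Real.log p + ∑ p ∈ PS 12 34 n, EB n p * Real.log p +
      K0 * (Real.log 4 * (34 * n)) := by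
    refine le_trans ?_ (EN_split n hn7 K0 hK0)
    have e1 : ((Finset.range (34 * n)).filter Nat.Prime).filter (fun p => ¬ 128 * p ≤ n) =
        (S.filter (fun p => ¬ 128 * p ≤ n)).filter (fun p => p < 34 * n) := by
      ext p
      rw [hS]
      simp only [Finset.mem_filter, Finset.mem_range]
      constructor
      · rintro ⟨⟨h1, h2⟩, h3⟩; exact ⟨⟨⟨by omega, h2⟩, h3⟩, h1⟩
      · rintro ⟨⟨⟨h1, h2⟩, h3⟩, h4⟩; exact ⟨⟨h4, h2⟩, h3⟩
    rw [e1, ← Finset.sum_filter_add_sum_filter_not (S.filter (fun p => ¬ 128 * p ≤ n)) (fun p => p < 34 * n)]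
    have hlo : ∑ p ∈ (S.filter (fun p => ¬ 128 * p ≤ n)).filter (fun p => p < 34 * n), Real.log (BN K0 n p) ≤
        ∑ p ∈ (S.filter (fun p => ¬ 128 * p ≤ n)).filter (fun p => p < 34 * n),
          ((if p < 12 * n then EN n p else EB n p) + K0) * Real.log p := by
      apply Finset.sum_le_sum
      intro p hp
      rw [hS, Finset.mem_filter, Finset.mem_filter, Finset.mem_filter] at hp
      obtain ⟨⟨⟨_, h2⟩, h3⟩, h5⟩ := hp
      have hp0 : (0 : ℝ) < p := by exact_mod_cast h2.pos
      unfold BN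
      rw [if_pos (by omega)]
      by_cases h12 : p < 12 * n
      · rw [if_pos h12, if_pos h12, Real.log_rpow hp0]
      · rw [if_neg h12, if_neg h12, if_pos h5, Real.log_rpow hp0]
    have hhi : ∑ p ∈ (S.filter (fun p => ¬ 128 * p ≤ n)).filter (fun p => ¬ p < 34 * n), Real.log (BN K0 n p) ≤ 0 := by
      apply Finset.sum_nonpos
      intro p hp
      rw [hS, Finset.mem_filter, Finset.mem_filter, Finset.mem_filter] at hp
      obtain ⟨⟨⟨_, h2⟩, h3⟩, h5⟩ := hp
      unfold BN
      rw [if_pos (by omega), if_neg (by omega), if_neg h5, Real.log_one]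
    linarith
  have hfin : K0 * (Real.log 4 * (34 * n)) ≤ ε / 10 * (n : ℝ) ^ 2 := by
    have := mul_le_mul_of_nonneg_right g9 hn0.le
    nlinarith
  have hn2 : (0 : ℝ) < (n : ℝ) ^ 2 := by positivity
  have hlog : (40507024 / 10000 : ℝ) ≤ 1058 * Real.log 46 := by
    have := log46
    norm_num at this ⊢
    linarith
  have hcon : ((LN : ℝ) + ε / 10 + (LB + ε / 10) + (LV + ε / 10) + (69 / 64 + ε / 10) -
      (1058 * Real.log 46 - 1587 - ε / 10) + ε / 10) * (n : ℝ) ^ 2 ≤ -(63204 / 100 - ε) * (n : ℝ) ^ 2 := by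
    apply mul_le_mul_of_nonneg_right _ hn2.le
    linarith
  linarith

end

end Pool.Agent.J6H77.Z5
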