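import Pool.Agent.J6H77.Z5.LocA
import Pool.Agent.Y801.Z5S.PU

/-!
# Uniform p-adic bounds with even thresholds
-/

open Polynomial Pool.Agent.H337R2 Pool.Agent.H336R2.Z5 Pool.Agent.Y801.Z5S Filter Topology

namespace Pool.Agent.J6H77.Z5

noncomputable section

/-- the bound of the local factor at `p` -/
def BN (K0 : ℝ) (n p : ℕ) : ℝ :=
  if n < 128 * p then (if p < 12 * n then (p : ℝ) ^ (EN n p + K0) else
    (if p < 34 * n then (p : ℝ) ^ (EB n p + K0) else 1)) else P49.Bf n p

theorem BN_unif : ∃ K0 : ℝ, 0 ≤ K0 ∧ ∀ n : ℕ, 1000000 ≤ n → ∀ p : ℕ, p.Prime → ∀ u : ℚ,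
    (padicNorm p u ≤ 1 ∨ (n < p ∧ p < 12 * n ∧ padicNorm p u ≤ (p : ℚ) ^ 5)) →
    ((padicNorm p (DET n u (mN n)) : ℚ) : ℝ) ≤ BN K0 n p := by
  obtain ⟨K1, hK1, h4⟩ := P_unif
  obtain ⟨K2, hK2, h5⟩ := N3_A
  refine ⟨max K1 K2, hK1.trans (le_max_left _ _), fun n hn p hp u hu => ?_⟩
  have : Fact p.Prime := ⟨hp⟩
  have hp1 : (1 : ℝ) ≤ p := by exact_mod_cast hp.one_lt.le
  have hp1q : (1 : ℚ) ≤ p := by exact_mod_cast hp.one_lt.le
  unfold BN
  by_cases h128 : n < 128 * p
  · rw [if_pos h128]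
    by_cases h12 : p < 12 * n
    · rw [if_pos h12]
      have hu5 : padicNorm p u ≤ (p : ℚ) ^ 5 := by
        rcases hu with hu | hu
        · exact hu.trans (one_le_pow₀ hp1q)
        · exact hu.2.2
      have hp2 : 48 * n < p ^ 2 := by nlinarith
      obtain ⟨μ, hμ⟩ := h5 n p hp (by omega) h128 h12 hp2
      have h6 := det_med5 (n := n) (p := p) (by omega) hp2 u hu5 (mN n) μ
      refine P4_to_rpow hp.one_lt.le h6 ?_
      refine hμ.trans ?_
      have := le_max_right K1 K2
      linarith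
    · rw [if_neg h12]
      have h8 := h4 n (by omega) p hp u hu
      unfold BB at h8
      rw [if_pos (by omega : n < 20 * p)] at h8
      by_cases h34 : p < 34 * n
      · rw [if_pos h34] at h8 ⊢
        refine h8.trans ?_
        apply Real.rpow_le_rpow_of_exponent_le hp1
        have := le_max_left K1 K2
        rw [EW, if_neg h12]
        linarith
      · rw [if_neg h34] at h8 ⊢
        exact h8
  · rw [if_neg h128]
    have h8 := h4 n (by omega) p hp u hu
    unfold BB at h8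
    rw [if_neg (by omega : ¬ n < 20 * p)] at h8
    exact h8

end

end Pool.Agent.J6H77.Z5
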