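import Pool.Agent.J6H77.Z5.Defs

/-!
As task P25, range `p > n/128`: the tents with odd index.
-/

open Polynomial Pool.Agent.H337R2 Pool.Agent.H336R2.Z5

namespace Pool.Agent.J6H77.Z5

noncomputable section

lemma N3_rho_sum (n p r : ℕ) (hr : ∀ i < r, (2 * i + 1) * p ≤ 4 * n) :
    ∑ i ∈ Finset.range r, tn (4 * n) (2 * i + 1) p = 4 * (n : ℝ) * r - p * (r : ℝ) ^ 2 := by
  induction r with
  | zero => simp
  | succ r ih =>
    rw [Finset.sum_range_succ, ih (fun i hi => hr i (by omega))]
    unfold tn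
    rw [Nat.cast_sub (hr r (by omega))]
    push_cast
    ring

theorem N3_rho {n p : ℕ} (hp : p.Prime) (hpn : n < 128 * p) :
    -(2 * (n : ℝ) * rh n p) + 1 / 2 * (rh n p : ℝ) ^ 2 * p = -(1 / 2) * ∑ j ∈ JC.filter Odd, tn (4 * n) j p := by
  have hp0 : 0 < p := hp.pos
  have hJ : JC.filter Odd = (Finset.range 2944).image (fun i => 2 * i + 1) := by
    ext j
    simp only [Finset.mem_filter, Finset.mem_Icc, Finset.mem_image, Finset.mem_range]
    constructor
    · rintro ⟨⟨h1, h2⟩, h3⟩
      obtain ⟨m, hm⟩ := h3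
      exact ⟨m, by omega, by omega⟩
    · rintro ⟨m, hm, rfl⟩
      exact ⟨⟨by omega, by omega⟩, ⟨m, rfl⟩⟩
  have h1 : ∑ j ∈ JC.filter Odd, tn (4 * n) j p = ∑ i ∈ Finset.range 2944, tn (4 * n) (2 * i + 1) p := by
    rw [hJ, Finset.sum_image]
    intro a _ b _ h
    have h' : 2 * a + 1 = 2 * b + 1 := h
    omega
  have hrh : rh n p ≤ 2944 := by
    unfold rh
    have : (4 * n + p) / (2 * p) < 2945 := by
      rw [Nat.div_lt_iff_lt_mul (by omega)]
      omega
    omega
  have h2 : ∑ i ∈ Finset.range 2944, tn (4 * n) (2 * i + 1) p =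
      ∑ i ∈ Finset.range (rh n p), tn (4 * n) (2 * i + 1) p := by
    symm
    apply Finset.sum_subset
    · intro i hi
      rw [Finset.mem_range] at hi ⊢
      omega
    · intro i _ hi
      rw [Finset.mem_range, not_lt] at hi
      unfold tn
      have h3 : ¬ (i + 1 ≤ (4 * n + p) / (2 * p)) := by
        unfold rh at hi
        omega
      rw [Nat.le_div_iff_mul_le (by omega), not_le] at h3
      have h4 : 4 * n ≤ (2 * i + 1) * p := by
        have : (i + 1) * (2 * p) = (2 * i + 1) * p + p := by ring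
        omega
      rw [Nat.sub_eq_zero_of_le h4, Nat.cast_zero]
  rw [h1, h2, N3_rho_sum n p _ (by
    intro i hi
    unfold rh at hi
    have h3 : i + 1 ≤ (4 * n + p) / (2 * p) := hi
    rw [Nat.le_div_iff_mul_le (by omega)] at h3
    have : (i + 1) * (2 * p) = (2 * i + 1) * p + p := by ring
    omega)]
  ring

end

end Pool.Agent.J6H77.Z5
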